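import Pool.Agent.H648.Lad.Fusion

set_option autoImplicit false
set_option linter.dupNamespace false

/-!
# Names for lower finite semilattices
-/

namespace Pool.Agent.H648.Lad

open Set

section

variable {P K : Type} [Preorder P] (LE : P → K → K → Prop)

/-- `p` forces `z` to be the join of `x` and `y` -/
def JN (p : P) (x y z : K) : Prop :=
  LE p x z ∧ LE p y z ∧ ∀ w, ∀ r ≤ p, LE r x w → LE r y w → LE r z w

/-- `p` forces everything below `y` to be in `F` -/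
def FIN (p : P) (y : K) (F : Finset K) : Prop := ∀ x, ∀ r ≤ p, LE r x y → x ∈ F

/-- `p` forces `e` to be below the join of `x` and `c` -/
def Bel (p : P) (x c e : K) : Prop := ∀ w, ∀ r ≤ p, LE r x w → LE r c w → LE r e w

/-- `p` forces `x` not to be below `y` -/
def NLE (p : P) (x y : K) : Prop := ∀ q ≤ p, ¬ LE q x y

/-- `p` decides the joins and the principal ideals of the elements of `I`, which stay in `I` -/
def DecJ (p : P) (I : Set K) : Prop :=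
  ∀ x ∈ I, ∀ y ∈ I, ∃ z ∈ I, ∃ F : Finset K, ↑F ⊆ I ∧ JN LE p x y z ∧ FIN LE p z F

/-- Names for lower finite join-semilattices with at most three lower covers. -/
structure Lad (p₀ : P) : Prop where
  mono : ∀ {p q x y}, q ≤ p → LE p x y → LE q x y
  dense : ∀ {p x y}, (∀ q ≤ p, ∃ r ≤ q, LE r x y) → LE p x y
  refl : ∀ p ≤ p₀, ∀ x, LE p x x
  trans : ∀ p ≤ p₀, ∀ x y z, LE p x y → LE p y z → LE p x z
  antisymm : ∀ p ≤ p₀, ∀ x y, LE p x y → LE p y x → x = y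
  lub : ∀ p ≤ p₀, ∀ x y, ∃ q ≤ p, ∃ z, JN LE q x y z
  fin : ∀ p ≤ p₀, ∀ y, ∃ q ≤ p, ∃ F : Finset K, FIN LE q y F
  cov : ∀ p ≤ p₀, ∀ x, ∀ f : Fin 4 → K, Function.Injective f →
    ¬ ∀ i, LE p (f i) x ∧ f i ≠ x ∧ ∀ z, ∀ r ≤ p, LE r (f i) z → LE r z x → z = f i ∨ z = x

/-- below `p₀`, the elements of `D` are closed under the joins and the principal ideals, as seen
by the conditions in `Q` -/
def Cl (p₀ : P) (Q : Set P) (D : Set K) : Prop :=
  ∀ s ∈ Q, s ≤ p₀ → ∀ x ∈ D, ∀ y ∈ D, ∃ s' ∈ Q, s' ≤ s ∧ ∃ z ∈ D, ∃ F : Finset K,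
    ↑F ⊆ D ∧ JN LE s' x y z ∧ FIN LE s' z F

end

section

variable {P K : Type} [Preorder P] {LE : P → K → K → Prop} {p₀ : P}

theorem JN.mono (L : Lad LE p₀) {p q : P} {x y z : K} (h : JN LE p x y z) (hq : q ≤ p) :
    JN LE q x y z :=
  ⟨L.mono hq h.1, L.mono hq h.2.1, fun w r hr => h.2.2 w r (hr.trans hq)⟩

theorem FIN.mono {p q : P} {y : K} {F : Finset K} (h : FIN LE p y F) (hq : q ≤ p) :
    FIN LE q y F := fun x r hr => h x r (hr.trans hq)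

theorem Bel.mono {p q : P} {x c e : K} (h : Bel LE p x c e) (hq : q ≤ p) :
    Bel LE q x c e := fun w r hr => h w r (hr.trans hq)

theorem NLE.mono {p q : P} {x y : K} (h : NLE LE p x y) (hq : q ≤ p) :
    NLE LE q x y := fun r hr => h r (hr.trans hq)

theorem DecJ.mono (L : Lad LE p₀) {p q : P} {I : Set K} (h : DecJ LE p I) (hq : q ≤ p) :
    DecJ LE q I := by
  intro x hx y hy
  obtain ⟨z, hz, F, hF, h1, h2⟩ := h x hx y hy
  exact ⟨z, hz, F, hF, h1.mono L hq, h2.mono hq⟩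

theorem Lad.jn_unique (L : Lad LE p₀) {p : P} (hp : p ≤ p₀) {x y z z' : K}
    (h : JN LE p x y z) (h' : JN LE p x y z') : z = z' :=
  L.antisymm p hp _ _ (h.2.2 _ p le_rfl h'.1 h'.2.1) (h'.2.2 _ p le_rfl h.1 h.2.1)

theorem JN.bel_iff (L : Lad LE p₀) {p : P} (hp : p ≤ p₀) {x c z e : K}
    (h : JN LE p x c z) : Bel LE p x c e ↔ LE p e z := by
  constructor
  · intro h1
    exact h1 z p le_rfl h.1 h.2.1
  · intro h1 w r hr hx hc
    exact L.trans r (hr.trans hp) _ _ _ (L.mono hr h1) (h.2.2 w r hr hx hc)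

theorem Bel.left (p : P) (x c : K) : Bel LE p x c x := fun _ _ _ h _ => h

theorem Bel.right (p : P) (x c : K) : Bel LE p x c c := fun _ _ _ _ h => h

/-- the join of an element with a smaller one -/
theorem DecJ.self (L : Lad LE p₀) {p : P} (hp : p ≤ p₀) {I : Set K} (h : DecJ LE p I) {y : K}
    (hy : y ∈ I) : ∃ F : Finset K, ↑F ⊆ I ∧ FIN LE p y F := by
  obtain ⟨z, _, F, hF, h1, h2⟩ := h y hy y hy
  have h3 : z = y := L.antisymm p hp _ _
    (h1.2.2 y p le_rfl (L.refl p hp y) (L.refl p hp y)) h1.1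
  subst h3
  exact ⟨F, hF, h2⟩

/-- `p` decides the order of `I` -/
theorem DecJ.dec (L : Lad LE p₀) {p : P} (hp : p ≤ p₀) {I : Set K} (h : DecJ LE p I) {x y : K}
    (hx : x ∈ I) (hy : y ∈ I) : LE p x y ∨ NLE LE p x y := by
  obtain ⟨z, _, F, hF, h1, h2⟩ := h x hx y hy
  by_cases hz : z = y
  · subst hz
    exact Or.inl h1.1
  · refine Or.inr fun q hq h3 => hz ?_
    exact L.antisymm q (hq.trans hp) _ _ (h1.2.2 y q hq h3 (L.refl q (hq.trans hp) y))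
      (L.mono hq h1.2.1)

theorem DecJ.le_of_le (L : Lad LE p₀) {p q : P} (hp : p ≤ p₀) {I : Set K} (h : DecJ LE p I)
    {x y : K} (hx : x ∈ I) (hy : y ∈ I) (hq : q ≤ p) (hxy : LE q x y) : LE p x y :=
  (h.dec L hp hx hy).resolve_right fun h' => h' q hq hxy

theorem DecJ.down (L : Lad LE p₀) {p q : P} (hp : p ≤ p₀) {I : Set K} (h : DecJ LE p I)
    {x y : K} (hy : y ∈ I) (hq : q ≤ p) (hxy : LE q x y) : x ∈ I := by
  obtain ⟨F, hF, h1⟩ := h.self L hp hy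
  exact hF (h1 x q hq hxy)

/-- the semilattice decided by `p` -/
@[instance_reducible] noncomputable def sl (L : Lad LE p₀) {p : P} (hp : p ≤ p₀) {I : Set K} (h : DecJ LE p I) :
    SemilatticeSup I where
  le x y := LE p x.1 y.1
  le_refl x := L.refl p hp x.1
  le_trans x y z := L.trans p hp _ _ _
  le_antisymm x y h1 h2 := Subtype.ext (L.antisymm p hp _ _ h1 h2)
  sup x y := ⟨(h x.1 x.2 y.1 y.2).choose, (h x.1 x.2 y.1 y.2).choose_spec.1⟩
  le_sup_left x y := by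
    obtain ⟨F, hF, h1, h2⟩ := (h x.1 x.2 y.1 y.2).choose_spec.2
    exact h1.1
  le_sup_right x y := by
    obtain ⟨F, hF, h1, h2⟩ := (h x.1 x.2 y.1 y.2).choose_spec.2
    exact h1.2.1
  sup_le x y z hx hy := by
    obtain ⟨F, hF, h1, h2⟩ := (h x.1 x.2 y.1 y.2).choose_spec.2
    exact h1.2.2 _ p le_rfl hx hy

/-- one of any four decided elements is forced to be below the join of the three others -/
theorem Lad.breadth (L : Lad LE p₀) {p : P} (hp : p ≤ p₀) {I : Set K} (h : DecJ LE p I)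
    {a b c d : K} (ha : a ∈ I) (hb : b ∈ I) (hc : c ∈ I) (hd : d ∈ I) :
    (∀ w, ∀ r ≤ p, LE r b w → LE r c w → LE r d w → LE r a w) ∨
    (∀ w, ∀ r ≤ p, LE r a w → LE r c w → LE r d w → LE r b w) ∨
    (∀ w, ∀ r ≤ p, LE r a w → LE r b w → LE r d w → LE r c w) ∨
    (∀ w, ∀ r ≤ p, LE r a w → LE r b w → LE r c w → LE r d w) := by
  let inst := sl L hp h
  have hsup : ∀ x y : I, ∀ w, ∀ r ≤ p, LE r x.1 w → LE r y.1 w → LE r (x ⊔ y).1 w := by
    intro x y w r hr h1 h2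
    obtain ⟨F, hF, h3, h4⟩ := (h x.1 x.2 y.1 y.2).choose_spec.2
    exact h3.2.2 w r hr h1 h2
  have hsup3 : ∀ x y z v : I, v ≤ x ⊔ y ⊔ z → ∀ w, ∀ r ≤ p, LE r x.1 w → LE r y.1 w →
      LE r z.1 w → LE r v.1 w := by
    intro x y z v hv w r hr h1 h2 h3
    exact L.trans r (hr.trans hp) _ _ _ (L.mono hr (show LE p v.1 (x ⊔ y ⊔ z).1 from hv))
      (hsup _ _ w r hr (hsup _ _ w r hr h1 h2) h3)
  have hfin : ∀ y : I, (Iic y).Finite := by
    intro y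
    obtain ⟨F, hF, h1⟩ := h.self L hp y.2
    refine Set.Finite.of_finite_image (f := Subtype.val) (F.finite_toSet.subset ?_)
      Subtype.val_injective.injOn
    rintro _ ⟨x, hx, rfl⟩
    exact h1 x.1 p le_rfl hx
  have hcov : ∀ x : I, ∀ f : Fin 4 → I, Function.Injective f → ¬ ∀ i, f i ⋖ x := by
    intro x f hf hcov
    refine L.cov p hp x.1 (fun i => (f i).1) (Subtype.val_injective.comp hf) fun i => ?_
    have h1 : LE p (f i).1 x.1 := (hcov i).le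
    refine ⟨h1, fun h2 => (hcov i).ne (Subtype.ext h2), fun z r hr h2 h3 => ?_⟩
    have hz : z ∈ I := h.down L hp x.2 hr h3
    have h4 : f i ≤ ⟨z, hz⟩ := h.le_of_le L hp (f i).2 hz hr h2
    have h5 : (⟨z, hz⟩ : I) ≤ x := h.le_of_le L hp hz x.2 hr h3
    rcases (hcov i).eq_or_eq h4 h5 with h6 | h6
    · exact Or.inl (congrArg Subtype.val h6)
    · exact Or.inr (congrArg Subtype.val h6)
  rcases breadth_abs hfin hcov ⟨a, ha⟩ ⟨b, hb⟩ ⟨c, hc⟩ ⟨d, hd⟩ with h1 | h1 | h1 | h1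
  · exact Or.inl (hsup3 _ _ _ _ h1)
  · exact Or.inr (Or.inl (hsup3 _ _ _ _ h1))
  · exact Or.inr (Or.inr (Or.inl (hsup3 _ _ _ _ h1)))
  · exact Or.inr (Or.inr (Or.inr (hsup3 _ _ _ _ h1)))

/-- the largest element of `I` below `y` -/
theorem Lad.exists_max (L : Lad LE p₀) {q : P} (hq : q ≤ p₀) {I : Set K}
    (hI : ∀ a ∈ I, ∀ b ∈ I, ∃ z ∈ I, JN LE q a b z) {y : K} {F : Finset K} (hF : FIN LE q y F)
    {z₀ : K} (hz₀ : z₀ ∈ I) (hy : LE q z₀ y) :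
    ∃ c ∈ I, LE q z₀ c ∧ LE q c y ∧ ∀ e ∈ I, LE q e y → LE q e c := by
  let inst : Preorder K :=
    { le := LE q
      le_refl := L.refl q hq
      le_trans := L.trans q hq }
  have hfin : {e | e ∈ I ∧ LE q e y}.Finite :=
    F.finite_toSet.subset fun e he => hF e q le_rfl he.2
  obtain ⟨c, hc⟩ := hfin.exists_maximal ⟨z₀, hz₀, hy⟩
  have h1 : ∀ e ∈ I, LE q e y → LE q e c := by
    intro e he hey
    obtain ⟨z, hz, h2⟩ := hI c hc.1.1 e he
    have h3 : LE q z y := h2.2.2 y q le_rfl hc.1.2 hey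
    have h4 : LE q z c := hc.2 (show z ∈ {e | e ∈ I ∧ LE q e y} from ⟨hz, h3⟩) h2.1
    exact L.trans q hq _ _ _ h2.2.1 h4
  exact ⟨c, hc.1.1, h1 z₀ hz₀ hy, hc.1.2, h1⟩

theorem Lad.cl_univ (L : Lad LE p₀) : Cl LE p₀ univ univ := by
  intro s _ hs x _ y _
  obtain ⟨q, hq, z, hz⟩ := L.lub s hs x y
  obtain ⟨r, hr, F, hF⟩ := L.fin q (hq.trans hs) z
  exact ⟨r, trivial, hr.trans hq, z, trivial, F, subset_univ _, hz.mono L hr, hF⟩

/-- Any countable set of elements is contained in a countable set decided by some extension. -/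
theorem Cl.exists_dec (L : Lad LE p₀) {Q : Set P} {D : Set K}
    (hcl : Cl LE p₀ Q D)
    (hlim : ∀ s : ℕ → P, (∀ n, s (n + 1) ≤ s n) → (∀ n, s n ∈ Q) → ∃ q ∈ Q, ∀ n, q ≤ s n)
    {p : P} (hpQ : p ∈ Q) (hp : p ≤ p₀) {A : Set K} (hA : A.Countable) (hAD : A ⊆ D) :
    ∃ q ∈ Q, q ≤ p ∧ ∃ I, A ⊆ I ∧ I ⊆ D ∧ I.Countable ∧ DecJ LE q I := by
  let S := {σ : P × Set K // σ.1 ∈ Q ∧ σ.1 ≤ p₀ ∧ σ.2.Countable ∧ σ.2 ⊆ D}
  let Par : S → Set (K × K) := fun σ => σ.1.2 ×ˢ σ.1.2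
  let Task : K × K → Set S := fun a => {σ | ∃ z ∈ σ.1.2, ∃ F : Finset K, ↑F ⊆ σ.1.2 ∧
    JN LE σ.1.1 a.1 a.2 z ∧ FIN LE σ.1.1 z F}
  obtain ⟨τ, hτ, h⟩ := fusion' (fun σ τ : S => σ.1.1 ≤ τ.1.1 ∧ τ.1.2 ⊆ σ.1.2)
    (fun σ => ⟨le_rfl, subset_rfl⟩) (fun σ τ υ h h' => ⟨h.1.trans h'.1, h'.2.trans h.2⟩)
    Par Task (fun σ => σ.2.2.2.1.prod σ.2.2.2.1)
    (fun σ τ h => prod_mono h.2 h.2)
    (by
      rintro a σ ⟨z, hz, F, hF, h1, h2⟩ τ hτ
      exact ⟨z, hτ.2 hz, F, hF.trans hτ.2, h1.mono L hτ.1, h2.mono hτ.1⟩)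
    (by
      rintro ⟨⟨s, I⟩, hs, hs₀, hI, hID⟩ ⟨x, y⟩ ⟨hx, hy⟩
      obtain ⟨s', hs', hle, z, hz, F, hF, h1, h2⟩ := hcl s hs hs₀ x (hID hx) y (hID hy)
      refine ⟨⟨⟨s', I ∪ insert z ↑F⟩, hs', hle.trans hs₀,
        hI.union ((F.finite_toSet.countable).insert z),
        union_subset hID (insert_subset hz hF)⟩, ⟨hle, subset_union_left⟩,
        z, Or.inr (mem_insert _ _), F, fun e he => Or.inr (mem_insert_of_mem _ he), h1, h2⟩)
    (by
      intro s hs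
      obtain ⟨q, hq, hqs⟩ := hlim (fun n => (s n).1.1) (fun n => (hs n).1) (fun n => (s n).2.1)
      refine ⟨⟨⟨q, ⋃ n, (s n).1.2⟩, hq, (hqs 0).trans (s 0).2.2.1,
        countable_iUnion fun n => (s n).2.2.2.1, iUnion_subset fun n => (s n).2.2.2.2⟩,
        fun n => ⟨hqs n, subset_iUnion (fun n => (s n).1.2) n⟩, ?_⟩
      have hmono : ∀ m n, m ≤ n → (s m).1.2 ⊆ (s n).1.2 := by
        intro m n hmn
        induction n, hmn using Nat.le_induction with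
        | base => exact subset_rfl
        | succ n _ ih => exact ih.trans (hs n).2
      rintro ⟨x, y⟩ ⟨hx, hy⟩
      obtain ⟨m, hm⟩ := mem_iUnion.1 hx
      obtain ⟨n, hn⟩ := mem_iUnion.1 hy
      exact mem_iUnion.2 ⟨max m n, hmono _ _ (le_max_left _ _) hm, hmono _ _ (le_max_right _ _) hn⟩)
    ⟨⟨p, A⟩, hpQ, hp, hA, hAD⟩
  exact ⟨τ.1.1, τ.2.1, hτ.1, τ.1.2, hτ.2, τ.2.2.2.2, τ.2.2.2.1,
    fun x hx y hy => h (x, y) ⟨hx, hy⟩⟩

end

end Pool.Agent.H648.Lad
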