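import Pool.Agent.H648.Lad.Levy

set_option autoImplicit false
set_option linter.dupNamespace false

/-!
# The bounded case
-/

namespace Pool.Agent.H648.Lad

open Set Pool.Agent.H833R3.Levy

variable {K W : Type} [LinearOrder K]

/-- Countably many open dense tasks can be solved at once. -/
theorem seq_tasks {Q : Set (Cond K W)} (hQ : ∀ s : ℕ → Cond K W, (∀ n, s (n + 1) ≤ s n) →
      (∀ n, s n ∈ Q) → lim s ∈ Q) (Task : ℕ → Set (Cond K W))
    (hopen : ∀ n, ∀ s ∈ Task n, ∀ s' ≤ s, s' ∈ Task n)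
    (hdense : ∀ n, ∀ s ∈ Q, ∃ s' ≤ s, s' ∈ Q ∧ s' ∈ Task n) {s : Cond K W} (hs : s ∈ Q) :
    ∃ s' ≤ s, s' ∈ Q ∧ ∀ n, s' ∈ Task n := by
  have step : ∀ (n : ℕ) (r : {r : Cond K W // r ∈ Q}), ∃ r' : {r : Cond K W // r ∈ Q},
      r'.1 ≤ r.1 ∧ r'.1 ∈ Task n := by
    rintro n ⟨r, hr⟩
    obtain ⟨r', h1, h2, h3⟩ := hdense n r hr
    exact ⟨⟨r', h2⟩, h1, h3⟩
  choose nx hnx1 hnx2 using step
  let r : ℕ → {r : Cond K W // r ∈ Q} := fun n => Nat.rec ⟨s, hs⟩ (fun n t => nx n t) n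
  have hr : ∀ n, r (n + 1) = nx n (r n) := fun n => rfl
  have h1 : ∀ n, (r (n + 1)).1 ≤ (r n).1 := fun n => by rw [hr]; exact hnx1 n (r n)
  refine ⟨lim fun n => (r n).1, lim_le h1 0, hQ _ h1 fun n => (r n).2, fun n => ?_⟩
  refine hopen n (r (n + 1)).1 ?_ _ (lim_le h1 (n + 1))
  rw [hr]; exact hnx2 n (r n)

variable (LE : Cond K W → K → K → Prop) {p₀ : Cond K W}

/-- `s` and `t` force the value at `d` to be bounded by `v` -/
def Bd (lam : K) (t s : Cond K W) (d v : K) : Prop :=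
  ∀ t' ≤ t, t' ≤ s → ∀ e, Ph LE lam t' d e → LE t' e v

/-- `δ` is closed under the tasks of the bounded case -/
def ClA (lam : K) (t : Cond K W) (δ : K) : Prop :=
  ∀ s, Supp δ s → s ≤ trunc lam t → ∀ x < δ, ∀ y < δ, ∃ s' ≤ s, Supp δ s' ∧
    ∃ z < δ, ∃ v < δ, ∃ F : Finset K, ↑F ⊆ Iio δ ∧ JN LE s' x y z ∧ Bd LE lam t s' z v ∧
      FIN LE s' v F

variable {LE}

theorem Bd.mono {lam : K} {t s s' : Cond K W} {d v : K} (h : Bd LE lam t s d v) (hs : s' ≤ s) :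
    Bd LE lam t s' d v := fun t' ht ht' => h t' ht (ht'.trans hs)

theorem exists_bd (L : Lad LE p₀) {lam : K} {t : Cond K W} (hU : ¬ UU LE lam t) {s : Cond K W}
    (hs : Supp lam s) (hst : s ≤ trunc lam t) {d : K} (hd : d < lam) :
    ∃ s' ≤ s, Supp lam s' ∧ ∃ v < lam, Bd LE lam t s' d v := by
  have h1 : ¬ Wt LE lam s t d := fun h => hU ⟨d, hd, s, hs, hst, h⟩
  unfold Wt at h1
  push Not at h1
  obtain ⟨s', hs', h2, v, hv, h3⟩ := h1
  refine ⟨s', hs', h2, v, hv, fun t' ht ht' e he => L.dense fun q hq => ?_⟩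
  have h4 := h3 q (hq.trans ht) (hq.trans ht') e (he.mono hq)
  unfold NLE at h4
  push Not at h4
  exact h4

theorem clA_lam (L : Lad LE p₀) {lam : K} (hs : Supp lam p₀) (hcl : ClAt LE p₀ lam)
    {t : Cond K W} (ht : t ≤ p₀) (hU : ¬ UU LE lam t) : ClA LE lam t lam := by
  intro s hss hst x hx y hy
  have hs₀ : s ≤ p₀ := hst.trans (trunc_le_of_supp hs ht)
  obtain ⟨s1, h1, h2, z, hz, F, hF, h3, h4⟩ := hcl s hss hs₀ x hx y hy
  obtain ⟨s2, h5, h6, v, hv, h7⟩ := exists_bd L hU h1 (h2.trans hst) hz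
  obtain ⟨s3, h8, h9, v', hv', F', hF', h10, h11⟩ := hcl s2 h6 (h5.trans (h2.trans hs₀)) v hv v hv
  refine ⟨s3, h9.trans (h5.trans h2), h8, z, hz, v, hv, F', hF', h3.mono L (h9.trans h5),
    h7.mono h9, fun w r hr hw => h11 w r hr ?_⟩
  exact L.trans r (hr.trans (h9.trans (h5.trans (h2.trans hs₀)))) _ _ _ hw (L.mono hr h10.1)

theorem bd_use (L : Lad LE p₀) {lam : K} (hs : Supp lam p₀) (hcl : ClAt LE p₀ lam)
    {t s r : Cond K W} (ht : t ≤ p₀) {x y z v e : K} {F : Finset K} (hrt : r ≤ t) (hrs : r ≤ s)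
    (hz : z < lam) (he : e < lam) (h1 : JN LE s x y z) (h2 : Bd LE lam t s z v)
    (h3 : FIN LE s v F)
    (h : ∀ w, ∀ r' ≤ r, LE r' lam w → LE r' x w → LE r' y w → LE r' e w) : e ∈ F := by
  obtain ⟨r', hr', e₁, he₁⟩ := exists_ph L hs hcl (hrt.trans ht) hz
  have hr'₀ : r' ≤ p₀ := hr'.trans (hrt.trans ht)
  have h4 : LE r' e₁ v := h2 r' (hr'.trans hrt) (hr'.trans hrs) e₁ he₁
  have h5 : LE r' e e₁ := he₁.2.2 e he r' le_rfl fun w r'' hr'' hw1 hw2 =>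
    h w r'' (hr''.trans hr') hw1
      (L.trans r'' (hr''.trans hr'₀) _ _ _ (L.mono (hr''.trans (hr'.trans hrs)) h1.1) hw2)
      (L.trans r'' (hr''.trans hr'₀) _ _ _ (L.mono (hr''.trans (hr'.trans hrs)) h1.2.1) hw2)
  exact h3 e r' (hr'.trans hrs) (L.trans r' hr'₀ _ _ _ h5 h4)

/-- The bounded case is impossible. -/
theorem caseA (L : Lad LE p₀) {lam : K} (hs : Supp lam p₀) (hcl : ClAt LE p₀ lam)
    {t : Cond K W} (ht : t ≤ p₀) (hU : ¬ UU LE lam t) {δ : K} (hδ : δ < lam)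
    (hsδ : Supp δ (trunc lam t)) (hclδ : ClA LE lam t δ) (hunc : ¬ (Iio δ).Countable) : False := by
  classical
  have hlam := clA_lam L hs hcl ht hU
  have hp_t : trunc lam t ≤ p₀ := trunc_le_of_supp hs ht
  -- an infinite countable set
  obtain ⟨A, hAδ, hA⟩ : ∃ A : ℕ → K, (∀ n, A n < δ) ∧ Function.Injective A := by
    have hinf : (Iio δ).Infinite := fun h => hunc h.countable
    have := hinf.to_subtype
    refine ⟨fun n => (Infinite.natEmbedding (Iio δ) n).1,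
      fun n => (Infinite.natEmbedding (Iio δ) n).2, fun m n h => ?_⟩
    exact (Infinite.natEmbedding (Iio δ)).injective (Subtype.ext h)
  obtain ⟨s1, h1, ⟨h2, -⟩, h3⟩ := seq_tasks (Q := {s | Supp lam s ∧ s ≤ trunc lam t})
    (fun s hs hs' => ⟨supp_lim fun n => (hs' n).1, (lim_le hs 0).trans (hs' 0).2⟩)
    (fun n => {s | ∃ z < lam, ∃ v, ∃ F : Finset K, JN LE s (A n) δ z ∧ Bd LE lam t s z v ∧
      FIN LE s v F})
    (by
      rintro n s ⟨z, hz, v, F, h1, h2, h3⟩ s' hs'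
      exact ⟨z, hz, v, F, h1.mono L hs', h2.mono hs', h3.mono hs'⟩)
    (by
      rintro n s ⟨h1, h2⟩
      obtain ⟨s', h3, h4, z, hz, v, hv, F, hF, h5, h6, h7⟩ :=
        hlam s h1 h2 (A n) ((hAδ n).trans hδ) δ hδ
      exact ⟨s', h3, ⟨h4, h3.trans h2⟩, z, hz, v, F, h5, h6, h7⟩)
    (show trunc lam t ∈ {s | Supp lam s ∧ s ≤ trunc lam t} from ⟨supp_trunc lam t, le_rfl⟩)
  choose za hza va Fa hJa hBa hFa using h3
  -- `b`
  obtain ⟨b, hbδ, hb⟩ : ∃ b < δ, ∀ n, b ∉ Fa n := by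
    by_contra hcon
    push Not at hcon
    refine hunc ((countable_iUnion fun n => (Fa n).finite_toSet.countable).mono fun b hb => ?_)
    obtain ⟨n, hn⟩ := hcon b hb
    exact mem_iUnion.2 ⟨n, hn⟩
  obtain ⟨s2, h4, h5, zb, hzb, vb, hvb, Fb, hFb, h6, h7, h8⟩ :=
    hlam s1 h2 h1 b (hbδ.trans hδ) δ hδ
  obtain ⟨n, hn⟩ : ∃ n, A n ∉ Fb := by
    by_contra hcon
    push Not at hcon
    exact Set.infinite_range_of_injective hA
      (Fb.finite_toSet.subset (by rintro _ ⟨n, rfl⟩; exact hcon n))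
  have h9 : trunc δ s2 ≤ trunc lam t := trunc_le_of_supp hsδ (h4.trans h1)
  obtain ⟨s3, h10, h11, zc, hzc, vc, hvc, Fc, hFc, h12, h13, h14⟩ :=
    hclδ (trunc δ s2) (supp_trunc δ s2) h9 (A n) (hAδ n) b hbδ
  obtain ⟨r1, h15, h16, h17⟩ := exists_common' h11 h10 (supp_mono h11 hδ.le) h5
  obtain ⟨r2, h18, h19⟩ := exists_common h17 (h16.trans (h4.trans h1))
  obtain ⟨r3, h20, J, hJ, _, hdec⟩ := L.exists_dec (h19.trans ht) (A := {lam, A n, b, δ})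
    (by simp)
  have hr3₀ : r3 ≤ p₀ := h20.trans (h19.trans ht)
  have hr3t : r3 ≤ t := h20.trans h19
  have hr3s2 : r3 ≤ s2 := h20.trans (h18.trans h16)
  have hr3s3 : r3 ≤ s3 := h20.trans (h18.trans h15)
  rcases L.breadth hr3₀ hdec (a := lam) (b := A n) (c := b) (d := δ) (hJ (by simp)) (hJ (by simp))
    (hJ (by simp)) (hJ (by simp)) with h | h | h | h
  · exact lt_irrefl _ (hcl.bel3 L hs hr3₀ ((hAδ n).trans hδ) (hbδ.trans hδ) hδ h)
  · exact hn (bd_use L hs hcl ht hr3t hr3s2 hzb ((hAδ n).trans hδ) h6 h7 h8 h)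
  · exact hb n (bd_use L hs hcl ht hr3t (hr3s2.trans h4) (hza n) (hbδ.trans hδ)
      (hJa n) (hBa n) (hFa n) h)
  · have h21 : δ ∈ Fc := bd_use L hs hcl ht hr3t hr3s3 (hzc.trans hδ) hδ h12 h13 h14 h
    exact lt_irrefl _ (hFc h21)

end Pool.Agent.H648.Lad
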