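import Pool.Agent.H648.Lad.Levy

set_option autoImplicit false
set_option linter.dupNamespace false

/-!
# The unbounded case
-/

namespace Pool.Agent.H648.Lad

open Set Pool.Agent.H833R3.Levy

variable {K W : Type} [LinearOrder K]

section

variable (LE : Cond K W → K → K → Prop) (p₀ : Cond K W)

/-- `q` forces the joins of `x` with the first coordinates to be related to the second ones as
described by `G` -/
def Real (q : Cond K W) (x : K) (G : Set (K × K)) : Prop :=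
  ∀ c e, (c, e) ∈ G → Bel LE q x c e ∧
    ∀ c' e', (c', e') ∈ G → ∀ r ≤ q, Bel LE r x c c' → LE r c' e

/-- reflection of the countable pieces of information on elements of `K` to `lam` -/
def Refl (lam : K) : Prop :=
  ∀ s, Supp lam s → s ≤ p₀ → ∀ G : Set (K × K), G.Countable → (∀ a ∈ G, a.1 < lam ∧ a.2 < lam) →
    (∃ q ≤ s, ∃ x, Real LE q x G) → ∃ q ≤ s, Supp lam q ∧ ∃ x < lam, Real LE q x G

/-- the states of the construction -/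
structure St (lam : K) where
  /-- the condition -/
  p : Cond K W
  /-- the decided elements -/
  I : Set K
  /-- the conditions which are looked at -/
  T : Set (Cond K W)
  sp : Supp lam p
  hp : p ≤ p₀
  cI : I.Countable
  sI : I ⊆ Iio lam
  cT : T.Countable
  hT : ∀ t ∈ T, t ≤ p₀ ∧ p ≤ trunc lam t

end

variable {LE : Cond K W → K → K → Prop} {p₀ : Cond K W}

/-- extension of states -/
def St.le {lam : K} (σ τ : St p₀ lam) : Prop := σ.p ≤ τ.p ∧ τ.I ⊆ σ.I ∧ τ.T ⊆ σ.T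

theorem St.le_refl {lam : K} (σ : St p₀ lam) : St.le σ σ := ⟨le_rfl, subset_rfl, subset_rfl⟩

theorem St.le_trans {lam : K} (σ τ υ : St p₀ lam) (h : St.le σ τ) (h' : St.le τ υ) :
    St.le σ υ := ⟨h.1.trans h'.1, h'.2.1.trans h.2.1, h'.2.2.trans h.2.2⟩

/-- add a condition -/
theorem St.add {lam : K} (σ : St p₀ lam) {t' : Cond K W} (ht : t' ≤ σ.p) {A : Set K}
    (hA : A.Countable) (hAl : A ⊆ Iio lam) :
    ∃ τ : St p₀ lam, St.le τ σ ∧ τ.p = trunc lam t' ∧ A ⊆ τ.I ∧ t' ∈ τ.T := by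
  have h1 : trunc lam t' ≤ σ.p := trunc_le_of_supp σ.sp ht
  refine ⟨⟨trunc lam t', σ.I ∪ A, insert t' σ.T, supp_trunc _ _, h1.trans σ.hp, σ.cI.union hA,
    union_subset σ.sI hAl, σ.cT.insert _, ?_⟩, ⟨h1, subset_union_left, subset_insert _ _⟩,
    rfl, subset_union_right, mem_insert _ _⟩
  rintro t (rfl | h)
  · exact ⟨ht.trans σ.hp, le_rfl⟩
  · exact ⟨(σ.hT t h).1, h1.trans (σ.hT t h).2⟩

/-- strengthen the condition -/
theorem St.strengthen {lam : K} (σ : St p₀ lam) {s : Cond K W} (hs : s ≤ σ.p) (hss : Supp lam s)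
    {A : Set K} (hA : A.Countable) (hAl : A ⊆ Iio lam) :
    ∃ τ : St p₀ lam, St.le τ σ ∧ τ.p = s ∧ A ⊆ τ.I :=
  ⟨⟨s, σ.I ∪ A, σ.T, hss, hs.trans σ.hp, σ.cI.union hA, union_subset σ.sI hAl, σ.cT,
    fun t ht => ⟨(σ.hT t ht).1, hs.trans (σ.hT t ht).2⟩⟩, ⟨hs, subset_union_left, subset_rfl⟩,
    rfl, subset_union_right⟩

/-- The state used in the construction. -/
theorem exists_state (L : Lad LE p₀) {lam : K} (hs : Supp lam p₀) (hcl : ClAt LE p₀ lam)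
    (hU : ∀ t ≤ p₀, UU LE lam t) {a : K} (ha : a < lam) :
    ∃ σ : St p₀ lam, a ∈ σ.I ∧ p₀ ∈ σ.T ∧ DecJ LE σ.p σ.I ∧
      (∀ t ∈ σ.T, ∀ x ∈ σ.I, ∃ t' ∈ σ.T, t' ≤ t ∧ ∃ e ∈ σ.I, Ph LE lam t' x e) ∧
      (∀ t ∈ σ.T, ∃ d ∈ σ.I, ∀ v ∈ σ.I, ∃ t' ∈ σ.T, t' ≤ t ∧ ∃ e ∈ σ.I,
        Ph LE lam t' d e ∧ NLE LE t' e v) := by
  -- the tasks
  let J1 : K → K → Set (St p₀ lam) := fun x y => {σ | ∃ z ∈ σ.I, ∃ F : Finset K, ↑F ⊆ σ.I ∧
    JN LE σ.p x y z ∧ FIN LE σ.p z F}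
  let J2 : Cond K W → K → Set (St p₀ lam) := fun t x => {σ | ∃ t' ∈ σ.T, t' ≤ t ∧ ∃ e ∈ σ.I,
    Ph LE lam t' x e}
  let J3 : Cond K W → Set (St p₀ lam) := fun t => {σ | ∃ d ∈ σ.I, Wt LE lam σ.p t d}
  let J4 : Cond K W → K → K → Set (St p₀ lam) := fun t x y => {σ | (∃ t' ∈ σ.T, t' ≤ t ∧
    ∃ e ∈ σ.I, Ph LE lam t' x e ∧ NLE LE t' e y) ∨
    ∀ p' ≤ σ.p, Supp lam p' → ¬ Wt LE lam p' t x}
  have o1 : ∀ x y, ∀ σ ∈ J1 x y, ∀ τ, St.le τ σ → τ ∈ J1 x y := by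
    rintro x y σ ⟨z, hz, F, hF, h1, h2⟩ τ hτ
    exact ⟨z, hτ.2.1 hz, F, hF.trans hτ.2.1, h1.mono L hτ.1, h2.mono hτ.1⟩
  have o2 : ∀ t x, ∀ σ ∈ J2 t x, ∀ τ, St.le τ σ → τ ∈ J2 t x := by
    rintro t x σ ⟨t', ht', hle, e, he, h⟩ τ hτ
    exact ⟨t', hτ.2.2 ht', hle, e, hτ.2.1 he, h⟩
  have o3 : ∀ t, ∀ σ ∈ J3 t, ∀ τ, St.le τ σ → τ ∈ J3 t := by
    rintro t σ ⟨d, hd, h⟩ τ hτ
    exact ⟨d, hτ.2.1 hd, fun s' hs' => h s' (hs'.trans hτ.1)⟩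
  have o4 : ∀ t x y, ∀ σ ∈ J4 t x y, ∀ τ, St.le τ σ → τ ∈ J4 t x y := by
    rintro t x y σ (⟨t', ht', hle, e, he, h⟩ | h) τ hτ
    · exact Or.inl ⟨t', hτ.2.2 ht', hle, e, hτ.2.1 he, h⟩
    · exact Or.inr fun p' hp' => h p' (hp'.trans hτ.1)
  have d1 : ∀ x y, ∀ σ : St p₀ lam, x ∈ σ.I → y ∈ σ.I → ∃ τ, St.le τ σ ∧ τ ∈ J1 x y := by
    intro x y σ hx hy
    obtain ⟨s', hs', hle, z, hz, F, hF, h1, h2⟩ := hcl σ.p σ.sp σ.hp x (σ.sI hx) y (σ.sI hy)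
    obtain ⟨τ, hτ, hτp, hA⟩ := σ.strengthen hle hs' (A := insert z ↑F)
      ((F.finite_toSet.countable).insert z) (insert_subset hz hF)
    exact ⟨τ, hτ, z, hA (mem_insert _ _), F, (subset_insert _ _).trans hA, by rw [hτp]; exact h1,
      by rw [hτp]; exact h2⟩
  have d2 : ∀ t x, ∀ σ : St p₀ lam, t ∈ σ.T → x ∈ σ.I → ∃ τ, St.le τ σ ∧ τ ∈ J2 t x := by
    intro t x σ ht hx
    obtain ⟨r, hr1, hr2⟩ := exists_common σ.sp (σ.hT t ht).2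
    obtain ⟨t', ht', e, he⟩ := exists_ph L hs hcl (hr1.trans σ.hp) (σ.sI hx)
    obtain ⟨τ, hτ, hτp, hA, hT⟩ := σ.add (ht'.trans hr1) (A := {e}) (countable_singleton e)
      (by rintro _ rfl; exact he.1)
    exact ⟨τ, hτ, t', hT, ht'.trans hr2, e, hA rfl, he⟩
  have d3 : ∀ t, ∀ σ : St p₀ lam, t ∈ σ.T → ∃ τ, St.le τ σ ∧ τ ∈ J3 t := by
    intro t σ ht
    obtain ⟨r, hr1, hr2⟩ := exists_common σ.sp (σ.hT t ht).2
    obtain ⟨d, hd, s, h1, h2, h3⟩ := hU r (hr1.trans σ.hp)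
    have h4 : s ≤ σ.p := h2.trans (trunc_le_of_supp σ.sp hr1)
    obtain ⟨τ, hτ, hτp, hA⟩ := σ.strengthen h4 h1 (A := {d}) (countable_singleton d)
      (by rintro _ rfl; exact hd)
    refine ⟨τ, hτ, d, hA rfl, ?_⟩
    rw [hτp]
    intro s' hs' h5 v hv
    obtain ⟨t', ht', h6, e, h7⟩ := h3 s' hs' h5 v hv
    exact ⟨t', ht'.trans hr2, h6, e, h7⟩
  have d4 : ∀ t x y, ∀ σ : St p₀ lam, x ∈ σ.I → y ∈ σ.I →
      ∃ τ, St.le τ σ ∧ τ ∈ J4 t x y := by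
    intro t x y σ hx hy
    by_cases h : ∀ p' ≤ σ.p, Supp lam p' → ¬ Wt LE lam p' t x
    · exact ⟨σ, St.le_refl σ, Or.inr h⟩
    · push Not at h
      obtain ⟨p', hp', h1, h2⟩ := h
      obtain ⟨t', ht', h3, e, he, h4⟩ := h2 p' le_rfl h1 y (σ.sI hy)
      obtain ⟨τ, hτ, hτp, hA, hT⟩ := σ.add (h3.trans hp') (A := {e}) (countable_singleton e)
        (by rintro _ rfl; exact he.1)
      exact ⟨τ, hτ, Or.inl ⟨t', hT, ht', e, hA rfl, he, h4⟩⟩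
  -- the initial state
  let σ₀ : St p₀ lam := ⟨p₀, {a}, {p₀}, hs, le_rfl, countable_singleton a,
    by rintro _ rfl; exact ha, countable_singleton p₀, by
      rintro t rfl
      exact ⟨le_rfl, le_trunc lam t⟩⟩
  let Par : St p₀ lam → Set (Cond K W × K × K) := fun σ => σ.T ×ˢ (σ.I ×ˢ σ.I)
  let Task : Cond K W × K × K → Set (St p₀ lam) := fun a =>
    {σ | σ ∈ J1 a.2.1 a.2.2 ∧ σ ∈ J2 a.1 a.2.1 ∧ σ ∈ J3 a.1 ∧ σ ∈ J4 a.1 a.2.1 a.2.2}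
  obtain ⟨σ, hσ, h⟩ := fusion' (St.le (p₀ := p₀) (lam := lam)) St.le_refl St.le_trans Par Task
    (fun σ => σ.cT.prod (σ.cI.prod σ.cI))
    (fun σ τ h => prod_mono h.2.2 (prod_mono h.2.1 h.2.1))
    (fun a σ h τ hτ => ⟨o1 _ _ σ h.1 τ hτ, o2 _ _ σ h.2.1 τ hτ, o3 _ σ h.2.2.1 τ hτ,
      o4 _ _ _ σ h.2.2.2 τ hτ⟩)
    (by
      rintro σ ⟨t, x, y⟩ ⟨ht, hx, hy⟩
      obtain ⟨σ1, h1, h1'⟩ := d1 x y σ hx hy
      obtain ⟨σ2, h2, h2'⟩ := d2 t x σ1 (h1.2.2 ht) (h1.2.1 hx)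
      have e2 := St.le_trans _ _ _ h2 h1
      obtain ⟨σ3, h3, h3'⟩ := d3 t σ2 (e2.2.2 ht)
      have e3 := St.le_trans _ _ _ h3 e2
      obtain ⟨σ4, h4, h4'⟩ := d4 t x y σ3 (e3.2.1 hx) (e3.2.1 hy)
      have e4 := St.le_trans _ _ _ h4 e3
      exact ⟨σ4, e4, o1 _ _ σ1 h1' _ (St.le_trans _ _ _ h4 (St.le_trans _ _ _ h3 h2)),
        o2 _ _ σ2 h2' _ (St.le_trans _ _ _ h4 h3), o3 _ σ3 h3' _ h4, h4'⟩)
    (by
      intro s hs'
      have hmI : ∀ m n, m ≤ n → (s m).I ⊆ (s n).I := by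
        intro m n hmn
        induction n, hmn using Nat.le_induction with
        | base => exact subset_rfl
        | succ n _ ih => exact ih.trans (hs' n).2.1
      have hmT : ∀ m n, m ≤ n → (s m).T ⊆ (s n).T := by
        intro m n hmn
        induction n, hmn using Nat.le_induction with
        | base => exact subset_rfl
        | succ n _ ih => exact ih.trans (hs' n).2.2
      have hle := lim_le (s := fun n => (s n).p) (fun n => (hs' n).1)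
      refine ⟨⟨lim fun n => (s n).p, ⋃ n, (s n).I, ⋃ n, (s n).T, supp_lim fun n => (s n).sp,
        (hle 0).trans (s 0).hp, countable_iUnion fun n => (s n).cI,
        iUnion_subset fun n => (s n).sI, countable_iUnion fun n => (s n).cT, ?_⟩,
        fun n => ⟨hle n, subset_iUnion (fun n => (s n).I) n, subset_iUnion (fun n => (s n).T) n⟩,
        ?_⟩
      · intro t ht
        obtain ⟨n, hn⟩ := mem_iUnion.1 ht
        exact ⟨((s n).hT t hn).1, (hle n).trans ((s n).hT t hn).2⟩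
      · rintro ⟨t, x, y⟩ ⟨ht, hx, hy⟩
        obtain ⟨l, hl⟩ := mem_iUnion.1 ht
        obtain ⟨m, hm⟩ := mem_iUnion.1 hx
        obtain ⟨n, hn⟩ := mem_iUnion.1 hy
        refine mem_iUnion.2 ⟨max l (max m n), hmT _ _ (le_max_left _ _) hl,
          hmI _ _ ((le_max_left m n).trans (le_max_right _ _)) hm,
          hmI _ _ ((le_max_right m n).trans (le_max_right _ _)) hn⟩)
    σ₀
  have haI : a ∈ σ.I := hσ.2.1 (mem_singleton a)
  have hpT : p₀ ∈ σ.T := hσ.2.2 (mem_singleton p₀)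
  refine ⟨σ, haI, hpT, fun x hx y hy => (h (p₀, x, y) ⟨hpT, hx, hy⟩).1,
    fun t ht x hx => (h (t, x, x) ⟨ht, hx, hx⟩).2.1, fun t ht => ?_⟩
  obtain ⟨d, hd, h1⟩ := (h (t, a, a) ⟨ht, haI, haI⟩).2.2.1
  refine ⟨d, hd, fun v hv => ?_⟩
  rcases (h (t, d, v) ⟨ht, hd, hv⟩).2.2.2 with h2 | h2
  · exact h2
  · exact absurd h1 (h2 σ.p le_rfl σ.sp)

end Pool.Agent.H648.Lad
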