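import Pool.Agent.H648.Lad.CaseB

set_option autoImplicit false
set_option linter.dupNamespace false

/-!
# The unbounded case is impossible
-/

namespace Pool.Agent.H648.Lad

open Set Pool.Agent.H833R3.Levy

variable {K W : Type} [LinearOrder K] {LE : Cond K W → K → K → Prop} {p₀ : Cond K W}

/-- The limit of a sequence of conditions realises what the conditions decide. -/
theorem real_lim {lam : K} {p : Cond K W} (hp : Supp lam p)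
    {t : ℕ → Cond K W} (ht : ∀ n, t (n + 1) ≤ t n) (hpt : ∀ n, p ≤ trunc lam (t n))
    {I : Set K} (hI : I ⊆ Iio lam) :
    ∃ q ≤ p, ∃ x, Real LE q x {a | a.1 ∈ I ∧ a.2 ∈ I ∧ ∃ n, Ph LE lam (t n) a.1 a.2} := by
  obtain ⟨q, hq1, hq2⟩ := exists_common hp (le_trunc_lim hpt)
  refine ⟨q, hq1, lam, ?_⟩
  rintro c e ⟨hc, he, n, hn⟩
  have hqn : q ≤ t n := hq2.trans (lim_le ht n)
  refine ⟨hn.2.1.mono hqn, ?_⟩
  rintro c' e' ⟨hc', -, -⟩ r hr h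
  exact hn.2.2 c' (hI hc') r (hr.trans hqn) h

/-- fixed points are killed -/
theorem kill (L : Lad LE p₀) {lam : K} {p t1 : Cond K W} (hp : p ≤ p₀) {d e z z' x : K}
    (h1 : Ph LE lam t1 d e) (h2 : NLE LE t1 e z') (hdz : LE p d z) (hzx : LE p z x)
    (hxz : LE p x z') {r : Cond K W} (hrt : r ≤ t1) (hrp : r ≤ p) (h3 : Ph LE lam r x x) :
    False := by
  have hr₀ := hrp.trans hp
  have h4 : LE r e x := h3.2.2 e h1.1 r le_rfl fun w r' hr' hw1 hw2 =>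
    h1.2.1 w r' (hr'.trans hrt) hw1 (L.trans r' (hr'.trans hr₀) _ _ _
      (L.trans r' (hr'.trans hr₀) _ _ _ (L.mono (hr'.trans hrp) hdz)
        (L.mono (hr'.trans hrp) hzx)) hw2)
  exact h2 r hrt (L.trans r hr₀ _ _ _ h4 (L.mono hrp hxz))

/-- The unbounded case is impossible. -/
theorem caseB (L : Lad LE p₀) {lam : K} (hs : Supp lam p₀) (hcl : ClAt LE p₀ lam)
    (hrefl : Refl LE p₀ lam)
    (hin : ∀ p : Cond K W, Supp lam p → ∀ A ⊆ Iio lam, A.Countable →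
      ∃ δ < lam, A ⊆ Iio δ ∧ Supp δ p ∧ ClAt LE p₀ δ ∧ ¬ (Iio δ).Countable)
    {a : K} (ha : a < lam) (hU : ∀ t ≤ p₀, UU LE lam t) : False := by
  classical
  obtain ⟨⟨p, I, T, sp, hp, cI, sI, cT, hT⟩, haI, hpT, hdec, hval, hunb⟩ :=
    exists_state L hs hcl hU ha
  simp only at haI hpT hdec hval hunb
  obtain ⟨δ, hδ, hIδ, hpδ, hclδ, hunc⟩ := hin p sp I sI cI
  have hsδ : Supp δ p₀ := by
    intro x hx
    obtain ⟨y, hy⟩ := Option.ne_none_iff_exists'.1 hx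
    exact hpδ x (by rw [hp x y hy]; simp)
  -- `δ` and `w`
  obtain ⟨p1, hp1, hp1s, J, hIJ, hJl, hJc, hdec1⟩ := hcl.exists_dec L sp hp
    (A := insert δ I) (cI.insert δ) (insert_subset hδ sI)
  have hp1₀ := hp1.trans hp
  have hδJ : δ ∈ J := hIJ (mem_insert _ _)
  have hIJ' : I ⊆ J := (subset_insert _ _).trans hIJ
  obtain ⟨w, hwδ, hwJ⟩ : ∃ w < δ, w ∉ J := by
    by_contra hcon
    push Not at hcon
    exact hunc (hJc.mono fun w hw => hcon w hw)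
  obtain ⟨p2, hp2, hp2s, J2, hJ2, hJ2l, hJ2c, hdec2⟩ := hcl.exists_dec L hp1s hp1₀
    (A := insert w J) (hJc.insert w) (insert_subset (hwδ.trans hδ) hJl)
  have hp2₀ := hp2.trans hp1₀
  have hp2p := hp2.trans hp1
  have hwJ2 : w ∈ J2 := hJ2 (mem_insert _ _)
  have hJJ2 : J ⊆ J2 := (subset_insert _ _).trans hJ2
  have hIJ2 : I ⊆ J2 := hIJ'.trans hJJ2
  have hδJ2 := hJJ2 hδJ
  obtain ⟨u, huJ2, Fu, hFu, hu, hFINu⟩ := hdec2 δ hδJ2 w hwJ2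
  have hup : ∀ q ≤ p, ∀ x ∈ I, ∀ y ∈ I, LE q x y → LE p2 x y := fun q hq x hx y hy h =>
    L.mono hp2p (hdec.le_of_le L hp hx hy hq h)
  have hIjn : ∀ q ≤ p, ∀ x ∈ I, ∀ y ∈ I, ∃ z ∈ I, JN LE q x y z := by
    intro q hq x hx y hy
    obtain ⟨z, hz, F, hF, h1, h2⟩ := hdec x hx y hy
    exact ⟨z, hz, h1.mono L hq⟩
  -- the fixed points
  let X : Set K := {c | c ∈ I ∧ ∀ e ∈ I, Bel LE p2 u c e → LE p2 e c}
  have hXI : X ⊆ I := fun c hc => hc.1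
  have hchain : ∀ x ∈ X, ∀ y ∈ X, LE p2 x y ∨ LE p2 y x := by
    intro x hx y hy
    rcases L.breadth hp2₀ hdec2 (a := δ) (b := w) (c := x) (d := y) hδJ2 hwJ2 (hIJ2 hx.1)
      (hIJ2 hy.1) with h | h | h | h
    · exact absurd (hclδ.bel3 L hsδ hp2₀ hwδ (hIδ hx.1) (hIδ hy.1) h) (lt_irrefl _)
    · -- `w` is below the join of elements of `J`
      exfalso
      obtain ⟨z1, hz1, F1, hF1, h1, _⟩ := hdec1 δ hδJ x (hIJ' hx.1)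
      obtain ⟨z2, hz2, F2, hF2, h2, h3⟩ := hdec1 z1 hz1 y (hIJ' hy.1)
      refine hwJ (hF2 (h3 w p2 hp2 (h z2 p2 le_rfl ?_ ?_ (L.mono hp2 h2.2.1))))
      · exact L.mono hp2 (L.trans p1 hp1₀ _ _ _ h1.1 h2.1)
      · exact L.mono hp2 (L.trans p1 hp1₀ _ _ _ h1.2.1 h2.1)
    · refine Or.inl (hy.2 x hx.1 fun v r hr h1 h2 => h v r hr ?_ ?_ h2)
      · exact L.trans r (hr.trans hp2₀) _ _ _ (L.mono hr hu.1) h1
      · exact L.trans r (hr.trans hp2₀) _ _ _ (L.mono hr hu.2.1) h1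
    · refine Or.inr (hx.2 y hy.1 fun v r hr h1 h2 => h v r hr ?_ ?_ h2)
      · exact L.trans r (hr.trans hp2₀) _ _ _ (L.mono hr hu.1) h1
      · exact L.trans r (hr.trans hp2₀) _ _ _ (L.mono hr hu.2.1) h1
  have hcof : ∀ e ∈ I, ∃ c ∈ X, LE p2 e c := by
    intro e he
    obtain ⟨y, hyJ, F, hF, h1, h2⟩ := hdec2 u huJ2 e (hIJ2 he)
    obtain ⟨c, hc, h3, h4, h5⟩ := L.exists_max hp2₀ (hIjn p2 hp2p) h2 he h1.2.1
    refine ⟨c, ⟨hc, fun e' he' h6 => h5 e' he' (h6 y p2 le_rfl h1.1 h4)⟩, h3⟩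
  have hcof3 : ∀ e1 ∈ I, ∀ e2 ∈ I, ∀ e3 ∈ I, ∃ c ∈ X, LE p2 e1 c ∧ LE p2 e2 c ∧ LE p2 e3 c := by
    intro e1 he1 e2 he2 e3 he3
    obtain ⟨z1, hz1, h1⟩ := hIjn p2 hp2p e1 he1 e2 he2
    obtain ⟨z2, hz2, h2⟩ := hIjn p2 hp2p z1 hz1 e3 he3
    obtain ⟨c, hc, h3⟩ := hcof z2 hz2
    have h4 := L.trans p2 hp2₀ _ _ _ h2.1 h3
    exact ⟨c, hc, L.trans p2 hp2₀ _ _ _ h1.1 h4, L.trans p2 hp2₀ _ _ _ h1.2.1 h4,
      L.trans p2 hp2₀ _ _ _ h2.2.1 h3⟩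
  -- the enumeration
  obtain ⟨en, hen⟩ := cI.exists_eq_range ⟨a, haI⟩
  have henI : ∀ n, en n ∈ I := fun n => by rw [hen]; exact ⟨n, rfl⟩
  have : Nonempty K := ⟨a⟩
  choose! d hdI hd using hunb
  -- one step for one of the two sequences
  have half : ∀ t ∈ T, ∀ v ∈ I, ∀ n, ∃ t1 ∈ T, t1 ≤ t ∧
      (∃ e, Ph LE lam t1 (d t) e ∧ NLE LE t1 e v) ∧ ∃ e ∈ I, Ph LE lam t1 (en n) e := by
    intro t ht v hv n
    obtain ⟨t1, ht1, h1, e, he, h2, h3⟩ := hd t ht v hv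
    obtain ⟨t2, ht2, h4, e', he', h5⟩ := hval t1 ht1 (en n) (henI n)
    exact ⟨t2, ht2, h4.trans h1, ⟨e, h2.mono h4, h3.mono h4⟩, e', he', h5⟩
  let S := {τ : Cond K W × Cond K W × K // τ.1 ∈ T ∧ τ.2.1 ∈ T ∧ τ.2.2 ∈ X ∧
    LE p2 (d τ.1) τ.2.2}
  have step : ∀ (n : ℕ) (τ : S), ∃ (τ' : S) (z' : K), z' ∈ X ∧ τ'.1.1 ≤ τ.1.1 ∧
      τ'.1.2.1 ≤ τ.1.2.1 ∧ LE p2 τ.1.2.2 z' ∧ LE p2 z' τ'.1.2.2 ∧ LE p2 (en n) z' ∧
      LE p2 (d τ.1.2.1) z' ∧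
      (∃ e, Ph LE lam τ'.1.1 (d τ.1.1) e ∧ NLE LE τ'.1.1 e z') ∧
      (∃ e, Ph LE lam τ'.1.2.1 (d τ.1.2.1) e ∧ NLE LE τ'.1.2.1 e τ'.1.2.2) ∧
      (∃ e ∈ I, Ph LE lam τ'.1.1 (en n) e) ∧ (∃ e ∈ I, Ph LE lam τ'.1.2.1 (en n) e) := by
    rintro n ⟨⟨t, t', z⟩, ht, ht', hz, hdz⟩
    obtain ⟨z', hz', h1, h2, h3⟩ := hcof3 z (hXI hz) (d t') (hdI t' ht') (en n) (henI n)
    obtain ⟨t1, ht1, h4, h5, h6⟩ := half t ht z' (hXI hz') n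
    obtain ⟨z1, hz1, h7, h8, -⟩ := hcof3 z' (hXI hz') (d t1) (hdI t1 ht1) (en n) (henI n)
    obtain ⟨t1', ht1', h9, h10, h11⟩ := half t' ht' z1 (hXI hz1) n
    exact ⟨⟨⟨t1, t1', z1⟩, ht1, ht1', hz1, h8⟩, z', hz', h4, h9, h1, h7, h3, h2, h5, h10,
      h6, h11⟩
  choose nx zz hX' hle1 hle2 hz1 hz2 hen1 hd1 hk1 hk2 hv1 hv2 using step
  obtain ⟨z₀, hz₀, hdz₀⟩ := hcof (d p₀) (hdI p₀ hpT)
  let s : ℕ → S := fun n => Nat.rec ⟨(p₀, p₀, z₀), hpT, hpT, hz₀, hdz₀⟩ (fun n t => nx n t) n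
  have hss : ∀ n, s (n + 1) = nx n (s n) := fun n => rfl
  have ht : ∀ n, (s (n + 1)).1.1 ≤ (s n).1.1 := fun n => by rw [hss]; exact hle1 n (s n)
  have ht' : ∀ n, (s (n + 1)).1.2.1 ≤ (s n).1.2.1 := fun n => by rw [hss]; exact hle2 n (s n)
  have htm : ∀ m n, m ≤ n → (s n).1.1 ≤ (s m).1.1 := fun m n h =>
    seq_mono (s := fun n => (s n).1.1) ht h
  have htm' : ∀ m n, m ≤ n → (s n).1.2.1 ≤ (s m).1.2.1 := fun m n h =>
    seq_mono (s := fun n => (s n).1.2.1) ht' h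
  have hpt : ∀ n, p2 ≤ trunc lam (s n).1.1 := fun n => hp2p.trans (hT _ (s n).2.1).2
  have hpt' : ∀ n, p2 ≤ trunc lam (s n).1.2.1 := fun n => hp2p.trans (hT _ (s n).2.2.1).2
  -- no common fixed point
  have hfix : ∀ x ∈ X, LE p2 z₀ x → (∃ n, ∀ r ≤ (s n).1.1, r ≤ p2 → ¬ Ph LE lam r x x) ∨
      ∃ n, ∀ r ≤ (s n).1.2.1, r ≤ p2 → ¬ Ph LE lam r x x := by
    intro x hx hzx
    have h1 : ∃ n, LE p2 x (s n).1.2.2 := by
      obtain ⟨n, hn⟩ : x ∈ range en := by rw [← hen]; exact hx.1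
      refine ⟨n + 1, ?_⟩
      rw [hss, ← hn]
      exact L.trans p2 hp2₀ _ _ _ (hen1 n (s n)) (hz2 n (s n))
    obtain ⟨m, hm, hmin⟩ : ∃ m, LE p2 x (s (m + 1)).1.2.2 ∧ LE p2 (s m).1.2.2 x := by
      rcases Nat.eq_zero_or_pos (Nat.find h1) with h2 | h2
      · have h3 := Nat.find_spec h1
        rw [h2] at h3
        refine ⟨0, ?_, hzx⟩
        rw [hss]
        exact L.trans p2 hp2₀ _ _ _ (L.trans p2 hp2₀ _ _ _ h3 (hz1 0 (s 0))) (hz2 0 (s 0))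
      · obtain ⟨m, hm⟩ := Nat.exists_eq_succ_of_ne_zero h2.ne'
        have h3 := Nat.find_spec h1
        rw [hm] at h3
        refine ⟨m, h3, ?_⟩
        have h4 := Nat.find_min h1 (m := m) (by omega)
        exact (hchain x hx _ (s m).2.2.2.1).resolve_left h4
    rcases hchain x hx _ (hX' m (s m)) with h2 | h2
    · left
      refine ⟨m + 1, fun r hr hr2 h3 => ?_⟩
      obtain ⟨e, he1, he2⟩ := hk1 m (s m)
      rw [hss] at hr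
      exact kill L hp2₀ he1 he2 (s m).2.2.2.2 hmin h2 hr hr2 h3
    · right
      refine ⟨m + 1, fun r hr hr2 h3 => ?_⟩
      obtain ⟨e, he1, he2⟩ := hk2 m (s m)
      rw [hss] at hr hm
      exact kill L hp2₀ he1 he2 (hd1 m (s m)) h2 hm hr hr2 h3
  -- reflection
  let Gs : Set (K × K) := {a | a.1 ∈ I ∧ a.2 ∈ I ∧ ∃ n, Ph LE lam (s n).1.1 a.1 a.2}
  let Gt : Set (K × K) := {a | a.1 ∈ I ∧ a.2 ∈ I ∧ ∃ n, Ph LE lam (s n).1.2.1 a.1 a.2}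
  have hGs : Gs.Countable :=
    Set.Countable.mono (s₂ := I ×ˢ I) (fun a ha => ⟨ha.1, ha.2.1⟩) (cI.prod cI)
  have hGt : Gt.Countable :=
    Set.Countable.mono (s₂ := I ×ˢ I) (fun a ha => ⟨ha.1, ha.2.1⟩) (cI.prod cI)
  obtain ⟨q1, hq1, hq1s, xs, hxs, hreal1⟩ := hrefl p2 hp2s hp2₀ Gs hGs
    (fun a ha => ⟨sI ha.1, sI ha.2.1⟩) (real_lim hp2s ht hpt sI)
  obtain ⟨q2, hq2, hq2s, xt, hxt, hreal2⟩ := hrefl q1 hq1s (hq1.trans hp2₀) Gt hGt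
    (fun a ha => ⟨sI ha.1, sI ha.2.1⟩) (real_lim hq1s ht' (fun n => hq1.trans (hpt' n)) sI)
  obtain ⟨q3, hq3, J3, hJ3, _, hdec3⟩ := L.exists_dec (hq2.trans (hq1.trans hp2₀))
    (A := {u, xs, xt, z₀}) (by simp)
  have hq3₀ : q3 ≤ p₀ := hq3.trans (hq2.trans (hq1.trans hp2₀))
  have hq3p2 : q3 ≤ p2 := hq3.trans (hq2.trans hq1)
  have hq3p : q3 ≤ p := hq3p2.trans hp2p
  obtain ⟨y1, hy1, _, _, g1, _⟩ := hdec3 u (hJ3 (by simp)) xs (hJ3 (by simp))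
  obtain ⟨y2, hy2, _, _, g2, _⟩ := hdec3 y1 hy1 xt (hJ3 (by simp))
  obtain ⟨y3, hy3, F, _, g3, hF⟩ := hdec3 y2 hy2 z₀ (hJ3 (by simp))
  have hyu : LE q3 u y3 := L.trans q3 hq3₀ _ _ _ (L.trans q3 hq3₀ _ _ _ g1.1 g2.1) g3.1
  have hyxs : LE q3 xs y3 := L.trans q3 hq3₀ _ _ _ (L.trans q3 hq3₀ _ _ _ g1.2.1 g2.1) g3.1
  have hyxt : LE q3 xt y3 := L.trans q3 hq3₀ _ _ _ g2.2.1 g3.1
  obtain ⟨c, hcI, h1, h2, h3⟩ := L.exists_max hq3₀ (hIjn q3 hq3p) hF (hXI hz₀) g3.2.1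
  have hcX : c ∈ X := by
    refine ⟨hcI, fun e he h4 => hup q3 hq3p e he c hcI (h3 e he ?_)⟩
    exact h4 y3 q3 hq3p2 hyu h2
  have hzc : LE p2 z₀ c := hup q3 hq3p _ (hXI hz₀) _ hcI h1
  obtain ⟨n, hn⟩ : c ∈ range en := by rw [← hen]; exact hcI
  -- `c` is a fixed point for both
  have hfs : Ph LE lam (s (n + 1)).1.1 c c := by
    obtain ⟨e, he, h4⟩ := hv1 n (s n)
    rw [hn, ← hss] at h4
    have h5 := (hreal1 c e ⟨hcI, he, n + 1, h4⟩).1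
    have h6 : LE q3 e c := h3 e he (h5 y3 q3 (hq3.trans hq2) hyxs h2)
    obtain ⟨r, hr1, hr2⟩ := exists_common hp2s (hpt (n + 1))
    have h7 : LE r c e := L.mono hr2 (h4.le (sI hcI))
    have h8 : LE p2 c e := hup r (hr1.trans hp2p) c hcI e he h7
    have h9 : e = c := L.antisymm q3 hq3₀ _ _ h6 (L.mono hq3p2 h8)
    rw [h9] at h4
    exact h4
  have hft : Ph LE lam (s (n + 1)).1.2.1 c c := by
    obtain ⟨e, he, h4⟩ := hv2 n (s n)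
    rw [hn, ← hss] at h4
    have h5 := (hreal2 c e ⟨hcI, he, n + 1, h4⟩).1
    have h6 : LE q3 e c := h3 e he (h5 y3 q3 hq3 hyxt h2)
    obtain ⟨r, hr1, hr2⟩ := exists_common hp2s (hpt' (n + 1))
    have h7 : LE r c e := L.mono hr2 (h4.le (sI hcI))
    have h8 : LE p2 c e := hup r (hr1.trans hp2p) c hcI e he h7
    have h9 : e = c := L.antisymm q3 hq3₀ _ _ h6 (L.mono hq3p2 h8)
    rw [h9] at h4
    exact h4
  rcases hfix c hcX hzc with ⟨m, hm⟩ | ⟨m, hm⟩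
  · obtain ⟨r, hr1, hr2⟩ := exists_common hp2s (hpt (max m (n + 1)))
    exact hm r (hr2.trans (htm _ _ (le_max_left _ _))) hr1
      (hfs.mono (hr2.trans (htm _ _ (le_max_right _ _))))
  · obtain ⟨r, hr1, hr2⟩ := exists_common hp2s (hpt' (max m (n + 1)))
    exact hm r (hr2.trans (htm' _ _ (le_max_left _ _))) hr1
      (hft.mono (hr2.trans (htm' _ _ (le_max_right _ _))))

end Pool.Agent.H648.Lad
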