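import Pool.Agent.H648.Lad.Levy

set_option autoImplicit false
set_option linter.dupNamespace false

/-!
# Closure points
-/

namespace Pool.Agent.H648.Lad

open Set Cardinal Pool.Agent.H833R3.Levy

/-- The initial segment `D` of the well-ordered set `K` has order type an inaccessible
cardinal. -/
structure InacS {K : Type} [LinearOrder K] (D : Set K) : Prop where
  unc : ℵ₁ < #D
  reg : ∀ ι : Type, #ι < #D → ∀ f : ι → K, (∀ i, f i ∈ D) → ∃ γ ∈ D, ∀ i, f i < γ
  small : ∀ γ ∈ D, #(Iio γ) < #D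
  pow : ∀ μ < #D, 2 ^ μ < #D

variable {K W : Type} [LinearOrder K]

theorem inacS_univ (hK : Inac K) : InacS (univ : Set K) where
  unc := by rw [mk_univ]; exact hK.unc
  reg ι hι f _ := by
    rw [mk_univ] at hι
    obtain ⟨γ, hγ⟩ := hK.reg ι hι f
    exact ⟨γ, trivial, hγ⟩
  small γ _ := by rw [mk_univ]; exact hK.small γ
  pow μ hμ := by rw [mk_univ] at hμ ⊢; exact hK.pow μ hμ

theorem inacS_Iio {lam : K} (hK : Inac (Iio lam)) : InacS (Iio lam) where
  unc := hK.unc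
  reg ι hι f hf := by
    obtain ⟨γ, hγ⟩ := hK.reg ι hι (fun i => ⟨f i, hf i⟩)
    exact ⟨γ.1, γ.2, fun i => hγ i⟩
  small γ hγ := by
    refine lt_of_le_of_lt ?_ (hK.small ⟨γ, hγ⟩)
    refine mk_le_of_injective (f := fun x : Iio γ => (⟨⟨x.1, lt_trans x.2 hγ⟩, x.2⟩ :
      Iio (⟨γ, hγ⟩ : Iio lam))) ?_
    intro x y h
    have := congrArg (fun z => z.1.1) h
    exact Subtype.ext this
  pow μ hμ := hK.pow μ hμ

theorem InacS.aleph0_lt {D : Set K} (h : InacS D) : ℵ₀ < #D := aleph0_lt_aleph_one.trans h.unc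

theorem InacS.bdd {D : Set K} (h : InacS D) {A : Set K} (hA : A.Countable) (hAD : A ⊆ D) :
    ∃ γ ∈ D, ∀ x ∈ A, x < γ := by
  obtain ⟨γ, hγ, h1⟩ := h.reg A ((mk_le_aleph0_iff.2 hA).trans_lt h.aleph0_lt) (fun x => x.1)
    (fun x => hAD x.2)
  exact ⟨γ, hγ, fun x hx => h1 ⟨x, hx⟩⟩

theorem mk_supp_le (γ : K) :
    #{p : Cond K W // Supp γ p} ≤ 2 ^ ((#(Iio γ) * #W) * #(Iio γ)) := by
  have h1 : #{p : Cond K W // Supp γ p} ≤ #((Iio γ × W) × Iio γ → Prop) := by
    refine mk_le_of_injective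
      (f := fun p z => p.1.f (z.1.1.1, z.1.2) = some z.2.1) ?_
    rintro ⟨p, hp⟩ ⟨q, hq⟩ h
    have h2 : ∀ x y, p.f x = some y ↔ q.f x = some y := by
      intro x y
      by_cases hx : x.1 < γ
      · by_cases hy : y < γ
        · have := congrFun h ((⟨x.1, hx⟩, x.2), ⟨y, hy⟩)
          exact iff_of_eq this
        · constructor
          · intro h'
            exact absurd ((p.lt x y h').trans hx) hy
          · intro h'
            exact absurd ((q.lt x y h').trans hx) hy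
      · constructor
        · intro h'
          exact absurd (hp x (by rw [h']; simp)) hx
        · intro h'
          exact absurd (hq x (by rw [h']; simp)) hx
    have h3 : p.f = q.f := by
      funext x
      rcases h4 : q.f x with _ | y
      · rcases h5 : p.f x with _ | y
        · rfl
        · have := (h2 x y).1 h5
          rw [h4] at this
          exact absurd this (by simp)
      · exact (h2 x y).2 h4
    rcases p with ⟨pf, _, _⟩
    rcases q with ⟨qf, _, _⟩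
    simp only at h3
    subst h3
    rfl
  refine h1.trans_eq ?_
  simp

theorem InacS.mk_supp_lt {D : Set K} (h : InacS D) (hW : #W < #D) {γ : K} (hγ : γ ∈ D) :
    #{p : Cond K W // Supp γ p} < #D :=
  (mk_supp_le γ).trans_lt (h.pow _ (mul_lt_of_lt h.aleph0_lt.le
    (mul_lt_of_lt h.aleph0_lt.le (h.small γ hγ) hW) (h.small γ hγ)))

/-- A function handling all tasks. -/
theorem InacS.exists_G {D : Set K} (h : InacS D) [Nonempty K] (ι : K → Type)
    (hι : ∀ α ∈ D, #(ι α) < #D) (Tk : ∀ α, ι α → K → Prop)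
    (hmono : ∀ α i β β', β ≤ β' → Tk α i β → Tk α i β')
    (hex : ∀ α ∈ D, ∀ i, ∃ β ∈ D, Tk α i β) :
    ∃ G : K → K, ∀ α ∈ D, G α ∈ D ∧ ∀ i, Tk α i (G α) := by
  have h1 : ∀ α, ∃ γ, α ∈ D → γ ∈ D ∧ ∀ i, Tk α i γ := by
    intro α
    by_cases hα : α ∈ D
    · choose b hb hb' using hex α hα
      obtain ⟨γ, hγ, h2⟩ := h.reg (ι α) (hι α hα) b hb
      exact ⟨γ, fun _ => ⟨hγ, fun i => hmono α i _ _ (h2 i).le (hb' i)⟩⟩
    · exact ⟨Classical.arbitrary K, fun h => absurd h hα⟩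
  choose G hG using h1
  exact ⟨G, hG⟩

/-- Closure points of uncountable cofinality. -/
theorem exists_inner [LinearOrder W] (hwfK : WellFoundedLT K) (hW : Om W) {lam : K}
    (h : InacS (Iio lam)) (G : K → K) (hG : ∀ α < lam, G α < lam) {a : K} (ha : a < lam) :
    ∃ δ < lam, a < δ ∧ ∀ A : Set K, A.Countable → A ⊆ Iio δ → ∃ α < δ, A ⊆ Iio α ∧ G α < δ := by
  have hwf := hW.wf
  have hWl : #W < #(Iio lam) := by rw [hW.card]; exact h.unc
  have hrec : ∀ (w : W) (ih : ∀ w', w' < w → {x : K // x < lam}), ∃ γ : {x : K // x < lam},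
      a < γ.1 ∧ ∀ w' (hw : w' < w), (ih w' hw).1 < γ.1 ∧ G (ih w' hw).1 < γ.1 := by
    intro w ih
    obtain ⟨γ, hγ, h1⟩ := h.bdd (A := {x | x = a ∨ ∃ w', ∃ hw : w' < w, x = (ih w' hw).1 ∨
        x = G (ih w' hw).1}) (by
      have h2 : {w' | w' < w}.Countable := (hW.small w).mono fun x hx => le_of_lt hx
      have h3 := h2.to_subtype
      refine ((countable_singleton a).union ((countable_range
        (fun w' : {w' | w' < w} => (ih w'.1 w'.2).1)).union (countable_range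
        (fun w' : {w' | w' < w} => G (ih w'.1 w'.2).1)))).mono ?_
      rintro x (rfl | ⟨w', hw, rfl | rfl⟩)
      · exact Or.inl rfl
      · exact Or.inr (Or.inl ⟨⟨w', hw⟩, rfl⟩)
      · exact Or.inr (Or.inr ⟨⟨w', hw⟩, rfl⟩))
      (by
        rintro x (rfl | ⟨w', hw, rfl | rfl⟩)
        · exact ha
        · exact (ih w' hw).2
        · exact hG _ (ih w' hw).2)
    exact ⟨⟨γ, hγ⟩, h1 a (Or.inl rfl), fun w' hw => ⟨h1 _ (Or.inr ⟨w', hw, Or.inl rfl⟩),
      h1 _ (Or.inr ⟨w', hw, Or.inr rfl⟩)⟩⟩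
  choose nx hnx1 hnx2 using hrec
  let g : W → {x : K // x < lam} := (wellFounded_lt (α := W)).fix nx
  have hh : ∀ w, g w = nx w fun w' _ => g w' := fun w => WellFounded.fix_eq _ _ _
  have h1 : ∀ w, a < (g w).1 := fun w => by rw [hh]; exact hnx1 _ _
  have h2 : ∀ w w', w' < w → (g w').1 < (g w).1 ∧ G (g w').1 < (g w).1 := fun w w' hw => by
    rw [hh w]; exact hnx2 w (fun w' _ => g w') w' hw
  obtain ⟨γ, hγ, hγ'⟩ := h.reg W hWl (fun w => (g w).1) (fun w => (g w).2)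
  obtain ⟨δ, hδ, hmin⟩ := WellFounded.has_min (@wellFounded_lt K _ hwfK)
    {γ | ∀ w, (g w).1 < γ} ⟨γ, hγ'⟩
  have hδγ : δ ≤ γ := not_lt.1 (hmin γ hγ')
  obtain ⟨w0, -⟩ := hW.bdd ∅ Set.countable_empty
  refine ⟨δ, hδγ.trans_lt hγ, (h1 w0).trans (hδ w0), fun A hA hAδ => ?_⟩
  have h4 : ∀ z : A, ∃ w1, z.1 < (g w1).1 := by
    rintro ⟨z, hz⟩
    by_contra hcon
    push Not at hcon
    refine hmin z (fun w => ?_) (hAδ hz)
    obtain ⟨w2, hw2⟩ := hW.bdd {w} (Set.countable_singleton w)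
    exact ((h2 w2 w (hw2 w rfl)).1).trans_le (hcon w2)
  choose f hf using h4
  have := hA.to_subtype
  obtain ⟨w1, hw1⟩ := hW.bdd (Set.range f) (Set.countable_range f)
  obtain ⟨w2, hw2⟩ := hW.bdd {w1} (Set.countable_singleton w1)
  refine ⟨(g w1).1, hδ w1, fun z hz => (hf ⟨z, hz⟩).trans (h2 w1 _ (hw1 _ ⟨_, rfl⟩)).1,
    ((h2 w2 w1 (hw2 w1 rfl)).2).trans (hδ w2)⟩

/-- the support of a condition -/
theorem supp_iff {γ : K} {p : Cond K W} : Supp γ p ↔ Prod.fst '' {x | p.f x ≠ none} ⊆ Iio γ := by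
  constructor
  · rintro h _ ⟨x, hx, rfl⟩
    exact h x hx
  · intro h x hx
    exact h ⟨x, hx, rfl⟩

theorem supp_cnt (p : Cond K W) : (Prod.fst '' {x | p.f x ≠ none}).Countable := p.cnt.image _

/-- Closure points for tasks depending on a condition and two elements. -/
theorem exists_inner' [LinearOrder W] (hwfK : WellFoundedLT K) (hW : Om W) {lam : K}
    (h : InacS (Iio lam)) (R : Cond K W → K → K → K → Prop)
    (hmono : ∀ s x y β β', β ≤ β' → R s x y β → R s x y β')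
    (hR : ∀ s, Supp lam s → ∀ x < lam, ∀ y < lam, ∃ β < lam, R s x y β) {a : K} (ha : a < lam) :
    ∃ δ < lam, a < δ ∧ ¬ (Iio δ).Countable ∧ ∀ s, Supp δ s → ∀ x < δ, ∀ y < δ, R s x y δ := by
  have hWl : #W < #(Iio lam) := by rw [hW.card]; exact h.unc
  have : Nonempty K := ⟨a⟩
  obtain ⟨G, hG⟩ := h.exists_G (fun α => {p : Cond K W // Supp α p} × Iio α × Iio α)
    (by
      intro α hα
      simp only [mk_prod, lift_id]
      exact mul_lt_of_lt h.aleph0_lt.le (h.mk_supp_lt hWl hα)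
        (mul_lt_of_lt h.aleph0_lt.le (h.small α hα) (h.small α hα)))
    (fun α i β => R i.1.1 i.2.1.1 i.2.2.1 β)
    (fun α i β β' hβ => hmono _ _ _ _ _ hβ)
    (by
      rintro α hα ⟨⟨s, hs⟩, ⟨x, hx⟩, ⟨y, hy⟩⟩
      exact hR s (supp_mono hs (le_of_lt hα)) x (lt_trans hx hα) y (lt_trans hy hα))
  obtain ⟨δ, hδ, haδ, h1⟩ := exists_inner hwfK hW h G (fun α hα => (hG α hα).1) ha
  refine ⟨δ, hδ, haδ, fun hc => ?_, fun s hs x hx y hy => ?_⟩
  · obtain ⟨α, hα, h2, -⟩ := h1 (Iio δ) hc subset_rfl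
    exact lt_irrefl _ (h2 hα)
  · obtain ⟨α, hα, h2, h3⟩ := h1 (Prod.fst '' {x | s.f x ≠ none} ∪ {x, y})
      ((supp_cnt s).union (by simp)) (union_subset (supp_iff.1 hs) (by
        rintro z (rfl | rfl)
        · exact hx
        · exact hy))
    refine hmono _ _ _ _ _ h3.le ((hG α (hα.trans hδ)).2
      ⟨⟨s, supp_iff.2 (subset_union_left.trans h2)⟩, ⟨x, h2 (Or.inr (by simp))⟩,
        ⟨y, h2 (Or.inr (by simp))⟩⟩)

end Pool.Agent.H648.Lad
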