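import Pool.Agent.H648.Lad.CaseA
import Pool.Agent.H648.Lad.CaseB2
import Pool.Agent.H648.Lad.Closure

set_option autoImplicit false
set_option linter.dupNamespace false

/-!
# There is no name for a large lower finite semilattice with at most three lower covers
-/

namespace Pool.Agent.H648.Lad

open Set Cardinal Pool.Agent.H833R3.Levy

/-- `K` is a well-ordered set of order type a Mahlo cardinal: every function has closure points of
inaccessible order type. -/
def MahloK (K : Type) [LinearOrder K] : Prop :=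
  Inac K ∧ ∀ h : K → K, ∀ a, ∃ β, a < β ∧ (∀ α < β, h α < β) ∧ Inac (Iio β)

variable {K W : Type} [LinearOrder K] {LE : Cond K W → K → K → Prop} {p₀ : Cond K W}

theorem exists_lam [LinearOrder W] (hK : MahloK K) (hW : Om W) (L : Lad LE p₀) :
    ∃ lam, Supp lam p₀ ∧ ClAt LE p₀ lam ∧ Refl LE p₀ lam ∧ InacS (Iio lam) := by
  have hKS := inacS_univ hK.1
  have hWK : #W < #(univ : Set K) := by rw [hW.card]; exact hKS.unc
  have hne := hK.1.nonempty
  let im : ∀ α : K, Set (Iio α × Iio α) → Set (K × K) := fun α G =>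
    {a | ∃ g ∈ G, a = (g.1.1, g.2.1)}
  obtain ⟨h, hh⟩ := hKS.exists_G
    (fun α => {p : Cond K W // Supp α p} × Iio α × Iio α × Set (Iio α × Iio α))
    (by
      intro α hα
      have h1 : #(Set (Iio α × Iio α)) = 2 ^ (#(Iio α) * #(Iio α)) := by simp
      simp only [mk_prod, lift_id]
      rw [h1]
      have h2 := hKS.small α hα
      exact mul_lt_of_lt hKS.aleph0_lt.le (hKS.mk_supp_lt hWK hα)
        (mul_lt_of_lt hKS.aleph0_lt.le h2 (mul_lt_of_lt hKS.aleph0_lt.le h2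
          (hKS.pow _ (mul_lt_of_lt hKS.aleph0_lt.le h2 h2)))))
    (fun α i β => (i.1.1 ≤ p₀ → ∃ s' ≤ i.1.1, Supp β s' ∧ ∃ z < β, ∃ F : Finset K, ↑F ⊆ Iio β ∧
      JN LE s' i.2.1.1 i.2.2.1.1 z ∧ FIN LE s' z F) ∧
      (i.1.1 ≤ p₀ → (∃ q ≤ i.1.1, ∃ x, Real LE q x (im α i.2.2.2)) →
        ∃ q ≤ i.1.1, Supp β q ∧ ∃ x < β, Real LE q x (im α i.2.2.2)))
    (by
      rintro α i β β' hβ ⟨h1, h2⟩
      refine ⟨fun hi => ?_, fun hi h3 => ?_⟩
      · obtain ⟨s', hs', h4, z, hz, F, hF, h5⟩ := h1 hi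
        exact ⟨s', hs', supp_mono h4 hβ, z, hz.trans_le hβ, F,
          hF.trans (Iio_subset_Iio hβ), h5⟩
      · obtain ⟨q, hq, h4, x, hx, h5⟩ := h2 hi h3
        exact ⟨q, hq, supp_mono h4 hβ, x, hx.trans_le hβ, h5⟩)
    (by
      rintro α - ⟨⟨s, hs⟩, x, y, G⟩
      simp only
      have e1 : ∃ β, s ≤ p₀ → ∃ s' ≤ s, Supp β s' ∧ ∃ z < β, ∃ F : Finset K, ↑F ⊆ Iio β ∧
          JN LE s' x.1 y.1 z ∧ FIN LE s' z F := by
        by_cases hs₀ : s ≤ p₀
        · obtain ⟨s1, hs1, z, hz⟩ := L.lub s hs₀ x.1 y.1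
          obtain ⟨s2, hs2, F, hF⟩ := L.fin s1 (hs1.trans hs₀) z
          obtain ⟨β, -, hβ⟩ := hKS.bdd (A := Prod.fst '' {x | s2.f x ≠ none} ∪ insert z ↑F)
            ((supp_cnt s2).union (F.finite_toSet.countable.insert z)) (subset_univ _)
          exact ⟨β, fun _ => ⟨s2, hs2.trans hs1, supp_iff.2 fun x hx => hβ x (Or.inl hx), z,
            hβ z (Or.inr (mem_insert _ _)), F, fun x hx => hβ x (Or.inr (mem_insert_of_mem _ hx)),
            hz.mono L hs2, hF⟩⟩
        · exact ⟨α, fun h => absurd h hs₀⟩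
      have e2 : ∃ β, s ≤ p₀ → (∃ q ≤ s, ∃ x, Real LE q x (im α G)) →
          ∃ q ≤ s, Supp β q ∧ ∃ x < β, Real LE q x (im α G) := by
        by_cases hq : ∃ q ≤ s, ∃ x, Real LE q x (im α G)
        · obtain ⟨q, hq, x, hx⟩ := hq
          obtain ⟨β, -, hβ⟩ := hKS.bdd (A := Prod.fst '' {x | q.f x ≠ none} ∪ {x})
            ((supp_cnt q).union (countable_singleton x)) (subset_univ _)
          exact ⟨β, fun _ _ => ⟨q, hq, supp_iff.2 fun x hx => hβ x (Or.inl hx), x,
            hβ x (Or.inr rfl), hx⟩⟩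
        · exact ⟨α, fun _ h => absurd h hq⟩
      obtain ⟨β1, h1⟩ := e1
      obtain ⟨β2, h2⟩ := e2
      refine ⟨max β1 β2, trivial, fun hi => ?_, fun hi h3 => ?_⟩
      · obtain ⟨s', hs', h4, z, hz, F, hF, h5⟩ := h1 hi
        exact ⟨s', hs', supp_mono h4 (le_max_left _ _), z, hz.trans_le (le_max_left _ _), F,
          hF.trans (Iio_subset_Iio (le_max_left _ _)), h5⟩
      · obtain ⟨q, hq, h4, x, hx, h5⟩ := h2 hi h3
        exact ⟨q, hq, supp_mono h4 (le_max_right _ _), x, hx.trans_le (le_max_right _ _), h5⟩)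
  obtain ⟨a, -, ha⟩ := hKS.bdd (supp_cnt p₀) (subset_univ _)
  obtain ⟨lam, halam, hcl, hin⟩ := hK.2 h a
  have hlam := inacS_Iio hin
  refine ⟨lam, supp_iff.2 fun x hx => (ha x hx).trans halam, ?_, ?_, hlam⟩
  · intro s hs hs₀ x hx y hy
    obtain ⟨α, hα, h1⟩ := hlam.bdd (A := Prod.fst '' {x | s.f x ≠ none} ∪ {x, y})
      ((supp_cnt s).union (by simp)) (union_subset (supp_iff.1 hs) (by
        rintro z (rfl | rfl)
        · exact hx
        · exact hy))
    obtain ⟨s', hs', h2, z, hz, F, hF, h3⟩ := ((hh α trivial).2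
      ⟨⟨s, supp_iff.2 fun x hx => h1 x (Or.inl hx)⟩, ⟨x, h1 x (Or.inr (by simp))⟩,
        ⟨y, h1 y (Or.inr (by simp))⟩, ∅⟩).1 hs₀
    have h4 : h α < lam := hcl α hα
    exact ⟨s', supp_mono h2 h4.le, hs', z, hz.trans h4, F, hF.trans (Iio_subset_Iio h4.le), h3⟩
  · intro s hs hs₀ G hG hGl hex
    obtain ⟨α, hα, h1⟩ := hlam.bdd
      (A := Prod.fst '' {x | s.f x ≠ none} ∪ (Prod.fst '' G ∪ Prod.snd '' G ∪ {a}))
      ((supp_cnt s).union (((hG.image _).union (hG.image _)).union (countable_singleton a)))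
      (union_subset (supp_iff.1 hs) (union_subset (union_subset (by
        rintro _ ⟨z, hz, rfl⟩
        exact (hGl z hz).1) (by
        rintro _ ⟨z, hz, rfl⟩
        exact (hGl z hz).2)) (by
        rintro _ rfl
        exact halam)))
    have haα : a < α := h1 a (Or.inr (Or.inr rfl))
    have him : im α {g | (g.1.1, g.2.1) ∈ G} = G := by
      ext ⟨c, e⟩
      constructor
      · rintro ⟨g, hg, h2⟩
        rw [h2]
        exact hg
      · intro hce
        exact ⟨(⟨c, h1 c (Or.inr (Or.inl (Or.inl ⟨(c, e), hce, rfl⟩)))⟩,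
          ⟨e, h1 e (Or.inr (Or.inl (Or.inr ⟨(c, e), hce, rfl⟩)))⟩), hce, rfl⟩
    have h2 := ((hh α trivial).2
      ⟨⟨s, supp_iff.2 fun x hx => h1 x (Or.inl hx)⟩, ⟨a, haα⟩, ⟨a, haα⟩,
        {g | (g.1.1, g.2.1) ∈ G}⟩).2 hs₀
    simp only [him] at h2
    obtain ⟨q, hq, h3, x, hx, h5⟩ := h2 hex
    have h4 : h α < lam := hcl α hα
    exact ⟨q, hq, supp_mono h3 h4.le, x, hx.trans h4, h5⟩

/-- In the Levy collapse of a Mahlo cardinal `K` to the successor of `W` there is no name for a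
lower finite join-semilattice on `K` with at most three lower covers of each element. -/
theorem core [LinearOrder W] (hK : MahloK K) (hW : Om W) (L : Lad LE p₀) : False := by
  obtain ⟨lam, hs, hcl, hrefl, hlam⟩ := exists_lam hK hW L
  have hwf := hK.1.wf
  have hin : ∀ p : Cond K W, Supp lam p → ∀ A ⊆ Iio lam, A.Countable →
      ∃ δ < lam, A ⊆ Iio δ ∧ Supp δ p ∧ ClAt LE p₀ δ ∧ ¬ (Iio δ).Countable := by
    intro p hp A hA hAc
    obtain ⟨a, ha, h1⟩ := hlam.bdd (A := Prod.fst '' {x | p.f x ≠ none} ∪ A)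
      ((supp_cnt p).union hAc) (union_subset (supp_iff.1 hp) hA)
    obtain ⟨δ, hδ, haδ, hunc, h2⟩ := exists_inner' hwf hW hlam
      (fun s x y β => s ≤ p₀ → ∃ s', Supp β s' ∧ s' ≤ s ∧ ∃ z < β, ∃ F : Finset K,
        ↑F ⊆ Iio β ∧ JN LE s' x y z ∧ FIN LE s' z F)
      (by
        intro s x y β β' hβ h3 hs₀
        obtain ⟨s', h4, hs', z, hz, F, hF, h5⟩ := h3 hs₀
        exact ⟨s', supp_mono h4 hβ, hs', z, hz.trans_le hβ, F,
          hF.trans (Iio_subset_Iio hβ), h5⟩)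
      (by
        intro s hss x hx y hy
        by_cases hs₀ : s ≤ p₀
        · obtain ⟨s', h4, hs', z, hz, F, hF, h5⟩ := hcl s hss hs₀ x hx y hy
          obtain ⟨β, hβ, h6⟩ := hlam.bdd (A := Prod.fst '' {x | s'.f x ≠ none} ∪ insert z ↑F)
            ((supp_cnt s').union (F.finite_toSet.countable.insert z))
            (union_subset (supp_iff.1 h4) (insert_subset hz hF))
          exact ⟨β, hβ, fun _ => ⟨s', supp_iff.2 fun x hx => h6 x (Or.inl hx), hs', z,
            h6 z (Or.inr (mem_insert _ _)), F, fun x hx => h6 x (Or.inr (mem_insert_of_mem _ hx)),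
            h5⟩⟩
        · exact ⟨x, hx, fun h => absurd h hs₀⟩) ha
    refine ⟨δ, hδ, fun x hx => (h1 x (Or.inr hx)).trans haδ,
      supp_iff.2 fun x hx => (h1 x (Or.inl hx)).trans haδ, ?_, hunc⟩
    intro s hss hs₀ x hx y hy
    exact h2 s hss x hx y hy hs₀
  obtain ⟨a, ha, -⟩ := hlam.bdd countable_empty (empty_subset _)
  by_cases hU : ∀ t ≤ p₀, UU LE lam t
  · exact caseB L hs hcl hrefl hin ha hU
  · push Not at hU
    obtain ⟨t, ht, hU⟩ := hU
    have hA := clA_lam L hs hcl ht hU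
    obtain ⟨b, hb, h1⟩ := hlam.bdd (A := Prod.fst '' {x | (trunc lam t).f x ≠ none})
      (supp_cnt _) (supp_iff.1 (supp_trunc lam t))
    obtain ⟨δ, hδ, hbδ, hunc, h2⟩ := exists_inner' hwf hW hlam
      (fun s x y β => s ≤ trunc lam t → ∃ s' ≤ s, Supp β s' ∧
        ∃ z < β, ∃ v < β, ∃ F : Finset K, ↑F ⊆ Iio β ∧ JN LE s' x y z ∧ Bd LE lam t s' z v ∧
          FIN LE s' v F)
      (by
        intro s x y β β' hβ h3 hst
        obtain ⟨s', hs', h4, z, hz, v, hv, F, hF, h5⟩ := h3 hst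
        exact ⟨s', hs', supp_mono h4 hβ, z, hz.trans_le hβ, v, hv.trans_le hβ, F,
          hF.trans (Iio_subset_Iio hβ), h5⟩)
      (by
        intro s hss x hx y hy
        by_cases hst : s ≤ trunc lam t
        · obtain ⟨s', hs', h4, z, hz, v, hv, F, hF, h5⟩ := hA s hss hst x hx y hy
          obtain ⟨β, hβ, h6⟩ := hlam.bdd
            (A := Prod.fst '' {x | s'.f x ≠ none} ∪ insert z (insert v ↑F))
            ((supp_cnt s').union ((F.finite_toSet.countable.insert v).insert z))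
            (union_subset (supp_iff.1 h4) (insert_subset hz (insert_subset hv hF)))
          exact ⟨β, hβ, fun _ => ⟨s', hs', supp_iff.2 fun x hx => h6 x (Or.inl hx), z,
            h6 z (Or.inr (mem_insert _ _)), v,
            h6 v (Or.inr (mem_insert_of_mem _ (mem_insert _ _))), F,
            fun x hx => h6 x (Or.inr (mem_insert_of_mem _ (mem_insert_of_mem _ hx))), h5⟩⟩
        · exact ⟨x, hx, fun h => absurd h hst⟩) hb
    exact caseA L hs hcl ht hU hδ (supp_iff.2 fun x hx => (h1 x hx).trans hbδ)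
      (fun s hss hst x hx y hy => h2 s hss x hx y hy hst) hunc

end Pool.Agent.H648.Lad
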