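import Mathlib

set_option autoImplicit false

/-!
# A fusion lemma, and the breadth of lower finite semilattices with few lower covers
-/

namespace Pool.Agent.H648.Lad

open Set

/-- Fusion: if countably many parameters are attached to each state, and the tasks given by the
parameters are open and dense, then some extension of each state solves all its own tasks. -/
theorem fusion {S A : Type*} [Preorder S] (Par : S → Set A) (Task : A → Set S)
    (hc : ∀ σ, (Par σ).Countable) (hmono : ∀ σ τ, τ ≤ σ → Par σ ⊆ Par τ)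
    (hopen : ∀ a, ∀ σ ∈ Task a, ∀ τ ≤ σ, τ ∈ Task a)
    (hdense : ∀ σ, ∀ a ∈ Par σ, ∃ τ ≤ σ, τ ∈ Task a)
    (hlim : ∀ s : ℕ → S, (∀ n, s (n + 1) ≤ s n) → ∃ σ, (∀ n, σ ≤ s n) ∧ Par σ ⊆ ⋃ n, Par (s n))
    (σ : S) : ∃ τ ≤ σ, ∀ a ∈ Par τ, τ ∈ Task a := by
  classical
  -- one step
  have h1 : ∀ σ : S, ∃ τ ≤ σ, ∀ a ∈ Par σ, τ ∈ Task a := by
    intro σ
    rcases (Par σ).eq_empty_or_nonempty with h | h
    · exact ⟨σ, le_rfl, fun a ha => absurd ha (by rw [h]; simp)⟩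
    obtain ⟨e, he⟩ := (hc σ).exists_eq_range h
    have step : ∀ (n : ℕ) (s : {s : S // s ≤ σ}), ∃ s' : {s : S // s ≤ σ},
        s'.1 ≤ s.1 ∧ s'.1 ∈ Task (e n) := by
      rintro n ⟨s, hs⟩
      have h2 : e n ∈ Par s := hmono σ s hs (by rw [he]; exact ⟨n, rfl⟩)
      obtain ⟨τ, hτ, hτ'⟩ := hdense s (e n) h2
      exact ⟨⟨τ, hτ.trans hs⟩, hτ, hτ'⟩
    choose nx hnx1 hnx2 using step
    let s : ℕ → {s : S // s ≤ σ} := fun n => Nat.rec ⟨σ, le_rfl⟩ (fun n t => nx n t) n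
    have hs : ∀ n, s (n + 1) = nx n (s n) := fun n => rfl
    obtain ⟨τ, hτ, -⟩ := hlim (fun n => (s n).1) fun n => by
      show (s (n + 1)).1 ≤ (s n).1
      rw [hs]; exact hnx1 n (s n)
    refine ⟨τ, (hτ 0).trans (s 0).2, fun a ha => ?_⟩
    rw [he] at ha
    obtain ⟨n, rfl⟩ := ha
    refine hopen _ _ ?_ _ (hτ (n + 1))
    rw [hs]; exact hnx2 n (s n)
  choose nx hnx1 hnx2 using h1
  let s : ℕ → S := fun n => Nat.rec σ (fun _ t => nx t) n
  have hs : ∀ n, s (n + 1) = nx (s n) := fun n => rfl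
  obtain ⟨τ, hτ, hp⟩ := hlim s fun n => by rw [hs]; exact hnx1 (s n)
  refine ⟨τ, hτ 0, fun a ha => ?_⟩
  obtain ⟨n, hn⟩ := mem_iUnion.1 (hp ha)
  refine hopen _ _ ?_ _ (hτ (n + 1))
  rw [hs]; exact hnx2 (s n) a hn

/-- Fusion, with an explicit relation. -/
theorem fusion' {S A : Type*} (le : S → S → Prop) (hrefl : ∀ σ, le σ σ)
    (htrans : ∀ σ τ υ, le σ τ → le τ υ → le σ υ) (Par : S → Set A) (Task : A → Set S)
    (hc : ∀ σ, (Par σ).Countable) (hmono : ∀ σ τ, le τ σ → Par σ ⊆ Par τ)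
    (hopen : ∀ a, ∀ σ ∈ Task a, ∀ τ, le τ σ → τ ∈ Task a)
    (hdense : ∀ σ, ∀ a ∈ Par σ, ∃ τ, le τ σ ∧ τ ∈ Task a)
    (hlim : ∀ s : ℕ → S, (∀ n, le (s (n + 1)) (s n)) →
      ∃ σ, (∀ n, le σ (s n)) ∧ Par σ ⊆ ⋃ n, Par (s n))
    (σ : S) : ∃ τ, le τ σ ∧ ∀ a ∈ Par τ, τ ∈ Task a := by
  let inst : Preorder S :=
    { le := le
      le_refl := hrefl
      le_trans := htrans }
  exact fusion Par Task hc hmono hopen hdense hlim σ

/-- In a join-semilattice with finite principal ideals in which no element has four lower covers,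
one of any four elements lies below the join of the three others. -/
theorem breadth_abs {α : Type*} [SemilatticeSup α] (hfin : ∀ y : α, (Iic y).Finite)
    (hcov : ∀ x : α, ∀ f : Fin 4 → α, Function.Injective f → ¬ ∀ i, f i ⋖ x)
    (a b c d : α) : a ≤ b ⊔ c ⊔ d ∨ b ≤ a ⊔ c ⊔ d ∨ c ≤ a ⊔ b ⊔ d ∨ d ≤ a ⊔ b ⊔ c := by
  by_contra hcon
  push Not at hcon
  obtain ⟨ha, hb, hc, hd⟩ := hcon
  have key : ∀ y z : α, y < z → ∃ w, y ≤ w ∧ w ⋖ z := by
    intro y z hyz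
    have hf : ({w | y ≤ w ∧ w < z} : Set α).Finite :=
      (hfin z).subset fun w hw => hw.2.le
    obtain ⟨w, hw⟩ := hf.exists_maximal ⟨y, le_rfl, hyz⟩
    refine ⟨w, hw.1.1, hw.1.2, fun v hv hvz => ?_⟩
    exact absurd (hw.2 (⟨hw.1.1.trans hv.le, hvz⟩ : v ∈ {w | y ≤ w ∧ w < z}) hv.le)
      (not_le_of_gt hv)
  have top : ∀ x : α, ∀ y : α, ¬ x ≤ y → y ≤ a ⊔ b ⊔ c ⊔ d → x ≤ a ⊔ b ⊔ c ⊔ d →
      y < a ⊔ b ⊔ c ⊔ d := by
    intro x y hxy hy hx
    exact lt_of_le_of_ne hy fun h => hxy (h ▸ hx)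
  have hya : b ⊔ c ⊔ d < a ⊔ b ⊔ c ⊔ d := top a _ ha
    (sup_le (sup_le (le_sup_of_le_left (le_sup_of_le_left le_sup_right))
      (le_sup_of_le_left le_sup_right)) le_sup_right)
    (le_sup_of_le_left (le_sup_of_le_left le_sup_left))
  have hyb : a ⊔ c ⊔ d < a ⊔ b ⊔ c ⊔ d := top b _ hb
    (sup_le (sup_le (le_sup_of_le_left (le_sup_of_le_left le_sup_left))
      (le_sup_of_le_left le_sup_right)) le_sup_right)
    (le_sup_of_le_left (le_sup_of_le_left le_sup_right))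
  have hyc : a ⊔ b ⊔ d < a ⊔ b ⊔ c ⊔ d := top c _ hc
    (sup_le (le_sup_of_le_left le_sup_left) le_sup_right)
    (le_sup_of_le_left le_sup_right)
  have hyd : a ⊔ b ⊔ c < a ⊔ b ⊔ c ⊔ d := top d _ hd le_sup_left le_sup_right
  obtain ⟨wa, hwa, hwa'⟩ := key _ _ hya
  obtain ⟨wb, hwb, hwb'⟩ := key _ _ hyb
  obtain ⟨wc, hwc, hwc'⟩ := key _ _ hyc
  obtain ⟨wd, hwd, hwd'⟩ := key _ _ hyd
  have ca1 : b ≤ wa := (le_sup_left.trans le_sup_left).trans hwa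
  have ca2 : c ≤ wa := (le_sup_right.trans le_sup_left).trans hwa
  have ca3 : d ≤ wa := le_sup_right.trans hwa
  have cb1 : a ≤ wb := (le_sup_left.trans le_sup_left).trans hwb
  have cb2 : c ≤ wb := (le_sup_right.trans le_sup_left).trans hwb
  have cb3 : d ≤ wb := le_sup_right.trans hwb
  have cc1 : a ≤ wc := (le_sup_left.trans le_sup_left).trans hwc
  have cc2 : b ≤ wc := (le_sup_right.trans le_sup_left).trans hwc
  have cc3 : d ≤ wc := le_sup_right.trans hwc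
  have cd1 : a ≤ wd := (le_sup_left.trans le_sup_left).trans hwd
  have cd2 : b ≤ wd := (le_sup_right.trans le_sup_left).trans hwd
  have cd3 : c ≤ wd := le_sup_right.trans hwd
  have bad : ∀ w, w ⋖ a ⊔ b ⊔ c ⊔ d → a ≤ w → b ≤ w → c ≤ w → d ≤ w → False := by
    intro w hw h1 h2 h3 h4
    exact absurd (sup_le (sup_le (sup_le h1 h2) h3) h4) (not_le_of_gt hw.lt)
  have hab : wa ≠ wb := fun h => bad wa hwa' (h ▸ cb1) ca1 ca2 ca3
  have hac : wa ≠ wc := fun h => bad wa hwa' (h ▸ cc1) ca1 ca2 ca3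
  have had : wa ≠ wd := fun h => bad wa hwa' (h ▸ cd1) ca1 ca2 ca3
  have hbc : wb ≠ wc := fun h => bad wb hwb' cb1 (h ▸ cc2) cb2 cb3
  have hbd : wb ≠ wd := fun h => bad wb hwb' cb1 (h ▸ cd2) cb2 cb3
  have hcd : wc ≠ wd := fun h => bad wc hwc' cc1 cc2 (h ▸ cd3) cc3
  have hinj : Function.Injective ![wa, wb, wc, wd] := by
    rw [← List.nodup_ofFn]
    simp only [List.ofFn_succ, List.ofFn_zero, Matrix.cons_val_zero, Matrix.cons_val_succ,
      List.nodup_cons, List.mem_cons, List.not_mem_nil, or_false, not_or, not_false_eq_true,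
      List.nodup_nil, and_true]
    exact ⟨⟨hab, hac, had⟩, ⟨hbc, hbd⟩, hcd⟩
  refine hcov (a ⊔ b ⊔ c ⊔ d) ![wa, wb, wc, wd] hinj ?_
  rw [Fin.forall_fin_succ, Fin.forall_fin_succ, Fin.forall_fin_succ, Fin.forall_fin_succ]
  exact ⟨hwa', hwb', hwc', hwd', fun i => i.elim0⟩

end Pool.Agent.H648.Lad
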