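import Pool.Agent.H648.Lad.Base
import Pool.Graph.R_seed8.H833R3.Force

set_option autoImplicit false
set_option linter.dupNamespace false

/-!
# Names for lower finite semilattices in the Levy collapse
-/

namespace Pool.Agent.H648.Lad

open Set Pool.Agent.H833R3.Levy

variable {K W : Type} [LinearOrder K]

theorem supp_mono {δ ε : K} {p : Cond K W} (h : Supp δ p) (hle : δ ≤ ε) : Supp ε p :=
  fun x hx => (h x hx).trans_le hle

theorem supp_lim {δ : K} {s : ℕ → Cond K W} (h : ∀ n, Supp δ (s n)) : Supp δ (lim s) := by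
  intro x hx
  obtain ⟨y, hy⟩ := Option.ne_none_iff_exists'.1 hx
  obtain ⟨n, hn⟩ := lim_some hy
  exact h n x (by rw [hn]; simp)

theorem supp_join {δ : K} {p q : Cond K W} (hp : Supp δ p) (hq : Supp δ q) :
    Supp δ (join p q) := by
  intro x hx
  obtain ⟨y, hy⟩ := Option.ne_none_iff_exists'.1 hx
  rcases join_some hy with h | h
  · exact hp x (by rw [h]; simp)
  · exact hq x (by rw [h]; simp)

theorem trunc_le_of_supp {δ : K} {p q : Cond K W} (hp : Supp δ p) (h : q ≤ p) :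
    trunc δ q ≤ p := fun x y hx => trunc_some.2 ⟨hp x (by rw [hx]; simp), h x y hx⟩

theorem exists_common' {γ δ : K} {r s : Cond K W} (hr : Supp γ r) (h : r ≤ trunc γ s)
    (hr' : Supp δ r) (hs : Supp δ s) : ∃ t, t ≤ r ∧ t ≤ s ∧ Supp δ t :=
  ⟨join r s, join_le_left r s, join_le_right (compat_of_supp hr h), supp_join hr' hs⟩

section

variable (LE : Cond K W → K → K → Prop) (p₀ : Cond K W)

/-- the initial segment `δ` is forced to be an ideal -/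
def ClAt (δ : K) : Prop := Cl LE p₀ {p | Supp δ p} (Iio δ)

/-- `t` forces `e` to be the largest element of `lam` below the join of `lam` and `c` -/
def Ph (lam : K) (t : Cond K W) (c e : K) : Prop :=
  e < lam ∧ Bel LE t lam c e ∧ ∀ e' < lam, ∀ r ≤ t, Bel LE r lam c e' → LE r e' e

/-- `s` forces that `t` does not bound the value at `d` -/
def Wt (lam : K) (s t : Cond K W) (d : K) : Prop :=
  ∀ s' ≤ s, Supp lam s' → ∀ v < lam, ∃ t' ≤ t, t' ≤ s' ∧ ∃ e, Ph LE lam t' d e ∧ NLE LE t' e v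

/-- some value is not bounded by `t` -/
def UU (lam : K) (t : Cond K W) : Prop :=
  ∃ d < lam, ∃ s, Supp lam s ∧ s ≤ trunc lam t ∧ Wt LE lam s t d

end

variable {LE : Cond K W → K → K → Prop} {p₀ : Cond K W}

theorem ClAt.jn (L : Lad LE p₀) {δ : K} (hs : Supp δ p₀) (hcl : ClAt LE p₀ δ) {p : Cond K W}
    (hp : p ≤ p₀) {x y z : K} (hx : x < δ) (hy : y < δ) (h : JN LE p x y z) : z < δ := by
  obtain ⟨s', hs', hle, z', hz', F, hF, h1, h2⟩ :=
    hcl (trunc δ p) (supp_trunc δ p) (trunc_le_of_supp hs hp) x hx y hy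
  obtain ⟨t, ht1, ht2⟩ := exists_common hs' hle
  have h3 : z = z' := L.jn_unique (ht2.trans hp) (h.mono L ht2) (h1.mono L ht1)
  rw [h3]
  exact hz'

theorem ClAt.le (L : Lad LE p₀) {δ : K} (hs : Supp δ p₀) (hcl : ClAt LE p₀ δ) {p : Cond K W}
    (hp : p ≤ p₀) {x y : K} (hx : x < δ) (h : LE p y x) : y < δ := by
  obtain ⟨s', hs', hle, z', hz', F, hF, h1, h2⟩ :=
    hcl (trunc δ p) (supp_trunc δ p) (trunc_le_of_supp hs hp) x hx x hx
  obtain ⟨t, ht1, ht2⟩ := exists_common hs' hle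
  have h3 : LE t y z' := L.trans t (ht2.trans hp) _ _ _ (L.mono ht2 h) (L.mono ht1 h1.1)
  exact hF (h2 y t ht1 h3)

theorem ClAt.bel3 (L : Lad LE p₀) {δ : K} (hs : Supp δ p₀) (hcl : ClAt LE p₀ δ) {p : Cond K W}
    (hp : p ≤ p₀) {x y z e : K} (hx : x < δ) (hy : y < δ) (hz : z < δ)
    (h : ∀ w, ∀ r ≤ p, LE r x w → LE r y w → LE r z w → LE r e w) : e < δ := by
  obtain ⟨q, hq, z1, h1⟩ := L.lub p hp x y
  have hz1 := hcl.jn L hs (hq.trans hp) hx hy h1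
  obtain ⟨q', hq', z2, h2⟩ := L.lub q (hq.trans hp) z1 z
  have hq'₀ : q' ≤ p₀ := hq'.trans (hq.trans hp)
  have hz2 := hcl.jn L hs hq'₀ hz1 hz h2
  refine hcl.le L hs hq'₀ hz2 (h z2 q' (hq'.trans hq) ?_ ?_ h2.2.1)
  · exact L.trans q' hq'₀ _ _ _ (L.mono hq' h1.1) h2.1
  · exact L.trans q' hq'₀ _ _ _ (L.mono hq' h1.2.1) h2.1

theorem Lad.exists_dec (L : Lad LE p₀) {p : Cond K W} (hp : p ≤ p₀) {A : Set K}
    (hA : A.Countable) : ∃ q ≤ p, ∃ I, A ⊆ I ∧ I.Countable ∧ DecJ LE q I := by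
  obtain ⟨q, _, hq, I, h1, _, h2, h3⟩ := L.cl_univ.exists_dec L
    (fun s hs _ => ⟨lim s, trivial, lim_le hs⟩) (mem_univ p) hp hA (subset_univ _)
  exact ⟨q, hq, I, h1, h2, h3⟩

theorem ClAt.exists_dec (L : Lad LE p₀) {δ : K} (hcl : ClAt LE p₀ δ) {p : Cond K W}
    (hps : Supp δ p) (hp : p ≤ p₀) {A : Set K}
    (hA : A.Countable) (hAδ : A ⊆ Iio δ) :
    ∃ q ≤ p, Supp δ q ∧ ∃ I, A ⊆ I ∧ I ⊆ Iio δ ∧ I.Countable ∧ DecJ LE q I := by
  obtain ⟨q, h0, hq, I, h1, h2, h3, h4⟩ := Cl.exists_dec L hcl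
    (fun s hs hs' => ⟨lim s, supp_lim hs', lim_le hs⟩) (show p ∈ {p | Supp δ p} from hps) hp hA hAδ
  exact ⟨q, hq, h0, I, h1, h2, h3, h4⟩

theorem Ph.mono {lam : K} {t t' : Cond K W} {c e : K} (h : Ph LE lam t c e) (ht : t' ≤ t) :
    Ph LE lam t' c e :=
  ⟨h.1, h.2.1.mono ht, fun e' he' r hr => h.2.2 e' he' r (hr.trans ht)⟩

theorem Ph.le {lam : K} {t : Cond K W} {c e : K} (h : Ph LE lam t c e) (hc : c < lam) :
    LE t c e := h.2.2 c hc t le_rfl (Bel.right t lam c)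

/-- The value at `c` is decided by some extension. -/
theorem exists_ph (L : Lad LE p₀) {lam : K} (hs : Supp lam p₀) (hcl : ClAt LE p₀ lam)
    {t : Cond K W} (ht : t ≤ p₀) {c : K} (hc : c < lam) : ∃ t' ≤ t, ∃ e, Ph LE lam t' c e := by
  obtain ⟨q, hq, J, hJ, _, hdec⟩ := L.exists_dec ht (A := {lam, c}) (by simp)
  have hq₀ := hq.trans ht
  have hlJ : lam ∈ J := hJ (by simp)
  have hcJ : c ∈ J := hJ (by simp)
  obtain ⟨z, hzJ, F, hF, h1, h2⟩ := hdec lam hlJ c hcJ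
  obtain ⟨e, he, h3, h4, h5⟩ := L.exists_max hq₀ (I := {e | e ∈ J ∧ e < lam}) (by
      rintro a ⟨ha, ha'⟩ b ⟨hb, hb'⟩
      obtain ⟨z', hz', F', _, h3, _⟩ := hdec a ha b hb
      exact ⟨z', ⟨hz', hcl.jn L hs hq₀ ha' hb' h3⟩, h3⟩) h2 (z₀ := c) ⟨hcJ, hc⟩ h1.2.1
  refine ⟨q, hq, e, he.2, (h1.bel_iff L hq₀).2 h4, fun e' he' r hr h6 => ?_⟩
  have h7 : LE r e' z := ((h1.mono L hr).bel_iff L (hr.trans hq₀)).1 h6
  have h8 : e' ∈ J := hdec.down L hq₀ hzJ hr h7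
  exact L.mono hr (h5 e' ⟨h8, he'⟩ (hdec.le_of_le L hq₀ h8 hzJ hr h7))

end Pool.Agent.H648.Lad
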