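import Pool.Agent.H648.Lad.Core

set_option autoImplicit false
set_option linter.dupNamespace false

/-!
# Mahlo cardinals
-/

namespace Pool.Agent.H648.Lad

open Set Cardinal Pool.Agent.H833R3.Levy

/-- `κ` is a Mahlo cardinal: it is inaccessible and the regular cardinals below `κ` form a
stationary subset of `κ`. -/
def Mahlo (κ : Cardinal.{0}) : Prop :=
  κ.IsInaccessible ∧ IsStationary
    {a : κ.ord.ToType | ∃ μ : Cardinal.{0}, μ.IsRegular ∧ Ordinal.typein (α := κ.ord.ToType) (· < ·) a = μ.ord}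

/-- closure points of a function on a regular cardinal -/
theorem exists_closure {K : Type} [LinearOrder K] (hK : Inac K) (F : K → K) (x₀ : K) :
    ∃ γ, x₀ < γ ∧ ∀ α < γ, F α < γ := by
  have hF : ∀ x, ∃ y, x < y ∧ ∀ α ≤ x, F α < y := by
    intro x
    obtain ⟨y, hy⟩ := hK.reg (Iic x) (hK.small' x) (fun α => F α.1)
    exact ⟨max y (hK.exists_gt x).choose, (hK.exists_gt x).choose_spec.trans_le (le_max_right _ _),
      fun α hα => (hy ⟨α, hα⟩).trans_le (le_max_left _ _)⟩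
  choose G hG1 hG2 using hF
  let s : ℕ → K := fun n => Nat.rec x₀ (fun _ x => G x) n
  have hs : ∀ n, s (n + 1) = G (s n) := fun n => rfl
  obtain ⟨γ, hγ⟩ := hK.reg ℕ (by rw [mk_nat]; exact hK.aleph0_lt) s
  obtain ⟨δ, hδ, hmin⟩ := WellFounded.has_min (@wellFounded_lt K _ hK.wf)
    {γ | ∀ n, s n < γ} ⟨γ, hγ⟩
  refine ⟨δ, hδ 0, fun α hα => ?_⟩
  have h1 : ∃ n, α ≤ s n := by
    by_contra hcon
    push Not at hcon
    exact hmin α hcon hα
  obtain ⟨n, hn⟩ := h1
  exact (hG2 (s n) α hn).trans (by rw [← hs]; exact hδ (n + 1))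

theorem mk_Iio_typein {κ : Cardinal.{0}} (x : κ.ord.ToType) :
    #(Iio x) = (Ordinal.typein (α := κ.ord.ToType) (· < ·) x).card := rfl

theorem exists_typein {κ : Cardinal.{0}} {o : Ordinal.{0}} (ho : o < κ.ord) :
    ∃ x : κ.ord.ToType, Ordinal.typein (α := κ.ord.ToType) (· < ·) x = o := by
  have h1 : o < Ordinal.type (α := κ.ord.ToType) (· < ·) := by rwa [Ordinal.type_toType]
  exact ⟨Ordinal.enum (α := κ.ord.ToType) (· < ·) ⟨o, h1⟩, Ordinal.typein_enum _ h1⟩

theorem mahloK_of_mahlo {κ : Cardinal.{0}} (h : Mahlo κ) : MahloK κ.ord.ToType := by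
  have hK := inac_toType h.1
  refine ⟨hK, fun f a => ?_⟩
  have hlt : ∀ {x y : κ.ord.ToType}, Ordinal.typein (α := κ.ord.ToType) (· < ·) x < Ordinal.typein (α := κ.ord.ToType) (· < ·) y ↔
      x < y := fun {x y} => Ordinal.typein_lt_typein _
  -- powers
  have hpow : ∀ x : κ.ord.ToType, ∃ y : κ.ord.ToType, #(Iio y) = 2 ^ #(Iio x) := by
    intro x
    have h1 : (2 ^ #(Iio x) : Cardinal.{0}).ord < κ.ord := by
      rw [ord_lt_ord]
      have := hK.pow _ (hK.small x)
      rwa [mk_toType, card_ord] at this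
    obtain ⟨y, hy⟩ := exists_typein h1
    exact ⟨y, by rw [mk_Iio_typein, hy, card_ord]⟩
  choose g hg using hpow
  obtain ⟨b, hb⟩ : ∃ b : κ.ord.ToType, ℵ₁ < #(Iio b) := by
    have h1 : (2 ^ ℵ₁ : Cardinal.{0}).ord < κ.ord := by
      rw [ord_lt_ord]
      have h2 := hK.unc
      have := hK.pow _ h2
      rwa [mk_toType, card_ord] at this
    obtain ⟨y, hy⟩ := exists_typein h1
    exact ⟨y, by rw [mk_Iio_typein, hy, card_ord]; exact cantor _⟩
  let F : κ.ord.ToType → κ.ord.ToType := fun x => max (f x) (g x)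
  have hclub : IsClub {β : κ.ord.ToType | a < β ∧ b < β ∧ ∀ α < β, F α < β} := by
    refine ⟨fun d hd hne _ x hx => ?_, fun x => ?_⟩
    · obtain ⟨β, hβ⟩ := hne
      have hβ' := hd hβ
      refine ⟨hβ'.1.trans_le (hx.1 hβ), hβ'.2.1.trans_le (hx.1 hβ), fun α hα => ?_⟩
      obtain ⟨β', hβ', h1⟩ := (lt_isLUB_iff hx).1 hα
      exact ((hd hβ').2.2 α h1).trans_le (hx.1 hβ')
    · obtain ⟨γ, hγ, h1⟩ := exists_closure hK F (max x (max a b))
      exact ⟨γ, ⟨((le_max_left a b).trans (le_max_right _ _)).trans_lt hγ,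
        ((le_max_right a b).trans (le_max_right _ _)).trans_lt hγ, h1⟩,
        ((le_max_left _ _).trans_lt hγ).le⟩
  obtain ⟨β, ⟨μ, hμ, hβμ⟩, haβ, hbβ, hcl⟩ := h.2 hclub
  have hcard : #(Iio β) = μ := by rw [mk_Iio_typein, hβμ, card_ord]
  refine ⟨β, haβ, fun α hα => (le_max_left _ _).trans_lt (hcl α hα), ?_⟩
  have hsmall : ∀ γ < β, #(Iio γ) < μ := by
    intro γ hγ
    rw [mk_Iio_typein, ← lt_ord, ← hβμ]
    exact hlt.2 hγ
  constructor
  · infer_instance
  · rw [hcard]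
    exact hb.trans (hsmall b hbβ)
  · intro ι hι f
    refine bounded_of_cof ?_ f
    have h1 : Order.cof (Iio β) = μ := by
      have : Order.cof (Iio β) = (Ordinal.typein (α := κ.ord.ToType) (· < ·) β).cof := Order.cof_Iio β
      rw [this, hβμ, hμ.cof_ord]
    rw [h1, ← hcard]
    exact hι
  · intro γ
    rw [hcard]
    refine lt_of_le_of_lt ?_ (hsmall γ.1 γ.2)
    refine mk_le_of_injective (f := fun x : Iio γ => (⟨x.1.1, x.2⟩ : Iio γ.1)) ?_
    intro x y hxy
    exact Subtype.ext (Subtype.ext (congrArg (fun z : Iio γ.1 => z.1) hxy))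
  · intro ν hν
    rw [hcard] at hν ⊢
    have h1 : ν.ord < Ordinal.typein (α := κ.ord.ToType) (· < ·) β := by rw [hβμ, ord_lt_ord]; exact hν
    obtain ⟨α, hα⟩ := exists_typein (κ := κ) (h1.trans (Ordinal.typein_lt_self β))
    have h2 : α < β := hlt.1 (by rw [hα]; exact h1)
    have h3 : #(Iio α) = ν := by rw [mk_Iio_typein, hα, card_ord]
    have h4 : g α < β := (le_max_right _ _).trans_lt (hcl α h2)
    rw [← h3, ← hg]
    exact hsmall _ h4

end Pool.Agent.H648.Lad
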